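import Pool.Agent.V11238.CDM.Pair

/-!
# Main argument
-/

set_option autoImplicit false

namespace Pool.Agent.V11238.CDM

universe u

/-- all variables are among the first three -/
def Tm.small : Tm → Bool
  | .var n => decide (n < 3)
  | .one => true
  | .zero => true
  | .mul s t => s.small && t.small
  | .add s t => s.small && t.small
  | .inf s t => s.small && t.small
  | .sup s t => s.small && t.small

/-- valuation -/
def v3 {A : Type u} (a b c : A) : ℕ → A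
  | 0 => a
  | 1 => b
  | _ + 2 => c

theorem eval_small {A : Type u} [LB A] (v : ℕ → A) (t : Tm) (h : t.small = true) :
    t.eval v = t.eval (v3 (v 0) (v 1) (v 2)) := by
  induction t with
  | var n =>
    have h1 : n < 3 := by simpa [Tm.small] using h
    interval_cases n <;> rfl
  | one => rfl
  | zero => rfl
  | mul s t h1 h2 =>
    simp only [Tm.small, Bool.and_eq_true] at h
    simp only [Tm.eval, h1 h.1, h2 h.2]
  | add s t h1 h2 =>
    simp only [Tm.small, Bool.and_eq_true] at h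
    simp only [Tm.eval, h1 h.1, h2 h.2]
  | inf s t h1 h2 =>
    simp only [Tm.small, Bool.and_eq_true] at h
    simp only [Tm.eval, h1 h.1, h2 h.2]
  | sup s t h1 h2 =>
    simp only [Tm.small, Bool.and_eq_true] at h
    simp only [Tm.eval, h1 h.1, h2 h.2]

theorem use3 {A : Type u} [LB A] (h : Models A Eqs) (s t : Tm) (hs : s.small = true)
    (ht : t.small = true)
    (hst : ∀ (κ : Bool) (a b c : Pair Bool κ), s.eval (v3 a b c) = t.eval (v3 a b c))
    (a b c : A) : s.eval (v3 a b c) = t.eval (v3 a b c) :=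
  h (s, t) (fun κ v => by
    show s.eval v = t.eval v
    rw [eval_small v s hs, eval_small v t ht]; exact hst κ _ _ _) _

/-! ### Derived constants and operations -/

section
variable {A : Type u} [LB A]

/-- constant -/
def cT : A := LB.zero ⊔ LB.mul LB.zero LB.zero
/-- constant -/
def cB : A := LB.one ⊓ LB.add LB.one LB.one
/-- constant -/
def cbot : A := LB.zero ⊓ LB.mul LB.zero LB.zero
/-- constant -/
def ctop : A := LB.one ⊔ LB.add LB.one LB.one
/-- first projection -/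
def fP (x : A) : A := (x ⊓ cB) ⊔ LB.mul (x ⊓ LB.one) cT
/-- second projection -/
def fQ (x : A) : A := (x ⊓ cB) ⊔ LB.mul (x ⊓ LB.zero) cT

/-- term -/
def tT : Tm := .sup .zero (.mul .zero .zero)
/-- term -/
def tB : Tm := .inf .one (.add .one .one)
/-- term -/
def tbot : Tm := .inf .zero (.mul .zero .zero)
/-- term -/
def ttop : Tm := .sup .one (.add .one .one)
/-- term -/
def tP (x : Tm) : Tm := .sup (.inf x tB) (.mul (.inf x .one) tT)
/-- term -/
def tQ (x : Tm) : Tm := .sup (.inf x tB) (.mul (.inf x .zero) tT)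
/-- term -/
def v0 : Tm := .var 0
/-- term -/
def v1 : Tm := .var 1
/-- term -/
def v2 : Tm := .var 2

variable (h : Models A Eqs)
include h

theorem i_dist (x y z : A) : x ⊓ (y ⊔ z) = (x ⊓ y) ⊔ (x ⊓ z) :=
  use3 h (.inf v0 (.sup v1 v2)) (.sup (.inf v0 v1) (.inf v0 v2)) rfl rfl (by decide +kernel) x y z
theorem i_bot (x : A) : cbot ⊓ x = cbot :=
  use3 h (.inf tbot v0) tbot rfl rfl (by decide +kernel) x x x
theorem i_top (x : A) : ctop ⊔ x = ctop :=
  use3 h (.sup ttop v0) ttop rfl rfl (by decide +kernel) x x x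
theorem i_Pinf (x y : A) : fP (x ⊓ y) = fP x ⊓ fP y :=
  use3 h (tP (.inf v0 v1)) (.inf (tP v0) (tP v1)) rfl rfl (by decide +kernel) x y x
theorem i_Psup (x y : A) : fP (x ⊔ y) = fP x ⊔ fP y :=
  use3 h (tP (.sup v0 v1)) (.sup (tP v0) (tP v1)) rfl rfl (by decide +kernel) x y x
theorem i_Qinf (x y : A) : fQ (x ⊓ y) = fQ x ⊓ fQ y :=
  use3 h (tQ (.inf v0 v1)) (.inf (tQ v0) (tQ v1)) rfl rfl (by decide +kernel) x y x
theorem i_Qsup (x y : A) : fQ (x ⊔ y) = fQ x ⊔ fQ y :=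
  use3 h (tQ (.sup v0 v1)) (.sup (tQ v0) (tQ v1)) rfl rfl (by decide +kernel) x y x
theorem i_PP (x : A) : fP (fP x) = fP x :=
  use3 h (tP (tP v0)) (tP v0) rfl rfl (by decide +kernel) x x x
theorem i_PQ (x : A) : fP (fQ x) = fQ x :=
  use3 h (tP (tQ v0)) (tQ v0) rfl rfl (by decide +kernel) x x x
theorem i_QP (x : A) : fQ (fP x) = fP x :=
  use3 h (tQ (tP v0)) (tP v0) rfl rfl (by decide +kernel) x x x
theorem i_Pbot : fP (cbot : A) = cbot :=
  use3 h (tP tbot) tbot rfl rfl (by decide +kernel) LB.one LB.one LB.one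
theorem i_Ptop : fP (ctop : A) = ctop :=
  use3 h (tP ttop) ttop rfl rfl (by decide +kernel) LB.one LB.one LB.one
theorem i_PT : fP (cT : A) = cT :=
  use3 h (tP tT) tT rfl rfl (by decide +kernel) LB.one LB.one LB.one
theorem i_PB : fP (cB : A) = cB :=
  use3 h (tP tB) tB rfl rfl (by decide +kernel) LB.one LB.one LB.one
theorem i_TB : (cT : A) ⊓ cB = cbot :=
  use3 h (.inf tT tB) tbot rfl rfl (by decide +kernel) LB.one LB.one LB.one
theorem i_TB' : (cT : A) ⊔ cB = ctop :=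
  use3 h (.sup tT tB) ttop rfl rfl (by decide +kernel) LB.one LB.one LB.one
theorem i_Pmul (x y : A) : fP (LB.mul x y) = (fP x ⊓ fP y) ⊔ (fQ x ⊓ fQ y) :=
  use3 h (tP (.mul v0 v1)) (.sup (.inf (tP v0) (tP v1)) (.inf (tQ v0) (tQ v1))) rfl rfl
    (by decide +kernel) x y x
theorem i_Qmul (x y : A) : fQ (LB.mul x y) = (fP x ⊓ fQ y) ⊔ (fQ x ⊓ fP y) :=
  use3 h (tQ (.mul v0 v1)) (.sup (.inf (tP v0) (tQ v1)) (.inf (tQ v0) (tP v1))) rfl rfl
    (by decide +kernel) x y x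
theorem i_Padd (x y : A) : fP (LB.add x y) = (fP x ⊔ fP y) ⊓ (fQ x ⊔ fQ y) :=
  use3 h (tP (.add v0 v1)) (.inf (.sup (tP v0) (tP v1)) (.sup (tQ v0) (tQ v1))) rfl rfl
    (by decide +kernel) x y x
theorem i_Qadd (x y : A) : fQ (LB.add x y) = (fP x ⊔ fQ y) ⊓ (fQ x ⊔ fP y) :=
  use3 h (tQ (.add v0 v1)) (.inf (.sup (tP v0) (tQ v1)) (.sup (tQ v0) (tP v1))) rfl rfl
    (by decide +kernel) x y x
theorem i_P1 : fP (LB.one : A) = ctop :=
  use3 h (tP .one) ttop rfl rfl (by decide +kernel) LB.one LB.one LB.one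
theorem i_Q1 : fQ (LB.one : A) = cB :=
  use3 h (tQ .one) tB rfl rfl (by decide +kernel) LB.one LB.one LB.one
theorem i_P0 : fP (LB.zero : A) = cbot :=
  use3 h (tP .zero) tbot rfl rfl (by decide +kernel) LB.one LB.one LB.one
theorem i_Q0 : fQ (LB.zero : A) = cT :=
  use3 h (tQ .zero) tT rfl rfl (by decide +kernel) LB.one LB.one LB.one
theorem i_dec (x : A) : x = (fP x ⊓ LB.one) ⊔ (fQ x ⊓ LB.zero) :=
  use3 h v0 (.sup (.inf (tP v0) .one) (.inf (tQ v0) .zero)) rfl rfl (by decide +kernel) x x x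
theorem i_agree (x : A) : fP x ⊓ cB = fQ x ⊓ cB :=
  use3 h (.inf (tP v0) tB) (.inf (tQ v0) tB) rfl rfl (by decide +kernel) x x x

theorem bot_le' (x : A) : cbot ≤ x := inf_eq_left.1 (i_bot h x)
theorem le_top' (x : A) : x ≤ ctop := sup_eq_left.1 (i_top h x)

/-- the lattice is distributive -/
@[reducible] def dl : DistribLattice A :=
  DistribLattice.ofInfSupLe (fun x y z => (i_dist h x y z).le)

end

theorem IsHom.fP {A B : Type u} [LB A] [LB B] {f : A → B} (h : IsHom f) (x : A) :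
    f (CDM.fP x) = CDM.fP (f x) := by
  simp only [CDM.fP, cB, cT, h.sup, h.inf, h.mul, h.one, h.add, h.zero]

theorem IsHom.fQ {A B : Type u} [LB A] [LB B] {f : A → B} (h : IsHom f) (x : A) :
    f (CDM.fQ x) = CDM.fQ (f x) := by
  simp only [CDM.fQ, cB, cT, h.sup, h.inf, h.mul, h.one, h.add, h.zero]

theorem IsHom.cT {A B : Type u} [LB A] [LB B] {f : A → B} (h : IsHom f) :
    f CDM.cT = CDM.cT := by simp only [CDM.cT, h.sup, h.mul, h.zero]
theorem IsHom.cB {A B : Type u} [LB A] [LB B] {f : A → B} (h : IsHom f) :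
    f CDM.cB = CDM.cB := by simp only [CDM.cB, h.inf, h.add, h.one]
theorem IsHom.cbot {A B : Type u} [LB A] [LB B] {f : A → B} (h : IsHom f) :
    f CDM.cbot = CDM.cbot := by simp only [CDM.cbot, h.inf, h.mul, h.zero]
theorem IsHom.ctop {A B : Type u} [LB A] [LB B] {f : A → B} (h : IsHom f) :
    f CDM.ctop = CDM.ctop := by simp only [CDM.ctop, h.sup, h.add, h.one]

section pair
variable {E : Type u} [BooleanAlgebra E] {κ : E}

theorem cT_fst : (cT : Pair E κ).1.1 = κ := by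
  simp only [cT, sup_fst, mul_fst, zero_fst, zero_snd]; simp
theorem cT_snd : (cT : Pair E κ).1.2 = κ := by
  simp only [cT, sup_snd, mul_snd, zero_fst, zero_snd]; simp
theorem cB_fst : (cB : Pair E κ).1.1 = κᶜ := by
  simp only [cB, inf_fst, add_fst, one_fst, one_snd]; simp
theorem cB_snd : (cB : Pair E κ).1.2 = κᶜ := by
  simp only [cB, inf_snd, add_snd, one_fst, one_snd]; simp
theorem cbot_fst : (cbot : Pair E κ).1.1 = ⊥ := by
  simp only [cbot, inf_fst, mul_fst, zero_fst, zero_snd]; simp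
theorem cbot_snd : (cbot : Pair E κ).1.2 = ⊥ := by
  simp only [cbot, inf_snd, mul_snd, zero_fst, zero_snd]; simp
theorem ctop_fst : (ctop : Pair E κ).1.1 = ⊤ := by
  simp only [ctop, sup_fst, add_fst, one_fst, one_snd]; simp
theorem ctop_snd : (ctop : Pair E κ).1.2 = ⊤ := by
  simp only [ctop, sup_snd, add_snd, one_fst, one_snd]; simp

theorem fP_pair (x : Pair E κ) : (fP x).1.1 = x.1.1 ∧ (fP x).1.2 = x.1.1 := by
  constructor <;>
  · apply eq_of_prime'
    intro F hF hc ht hb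
    have h1 := agree hF hc x.2
    simp only [fP, sup_fst, sup_snd, mul_fst, mul_snd, inf_fst, inf_snd, cB_fst, cB_snd, cT_fst,
      cT_snd, one_fst, one_snd, hF.inf, hF.sup, hc]
    tauto

theorem fQ_pair (x : Pair E κ) : (fQ x).1.1 = x.1.2 ∧ (fQ x).1.2 = x.1.2 := by
  constructor <;>
  · apply eq_of_prime'
    intro F hF hc ht hb
    have h1 := agree hF hc x.2
    simp only [fQ, sup_fst, sup_snd, mul_fst, mul_snd, inf_fst, inf_snd, cB_fst, cB_snd, cT_fst,
      cT_snd, zero_fst, zero_snd, hF.inf, hF.sup, hc]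
    tauto

/-- Pairs over a complete Boolean algebra are injective. -/
theorem inj_pair (hE : ∀ S : Set E, ∃ s, IsLUB S s) (κ : E) : IsInjective Eqs (Pair E κ) := by
  intro S T _ _ hS hT i hi hinj f hf
  obtain ⟨g, g1, g2, g3⟩ := @sikorski T (dl hT) E _ hE
    {p | ∃ s : S, fP s = s ∧ p = (i s, (f s).1.1)} (by
      refine @Good.mk T (dl hT) E _ _ ?_ ?_ ?_
      · rintro _ ⟨s, hs, rfl⟩ _ ⟨t, ht, rfl⟩
        refine ⟨s ⊓ t, by rw [i_Pinf hS, hs, ht], ?_⟩
        rw [hi.inf, hf.inf]; rfl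
      · rintro _ ⟨s, hs, rfl⟩ _ ⟨t, ht, rfl⟩
        refine ⟨s ⊔ t, by rw [i_Psup hS, hs, ht], ?_⟩
        rw [hi.sup, hf.sup]; rfl
      · rintro _ ⟨s, hs, rfl⟩ _ ⟨t, ht, rfl⟩ hst
        have h1 : i s ≤ i t := hst
        exact (hf.mono ((hi.le_iff hinj).1 h1)).1) (b := cbot) (t := ctop)
    ⟨cbot, i_Pbot hS, by rw [hi.cbot, hf.cbot, cbot_fst]⟩
    ⟨ctop, i_Ptop hS, by rw [hi.ctop, hf.ctop, ctop_fst]⟩ (bot_le' hT) (le_top' hT)
  have gbot : g cbot = ⊥ := by
    have := g3 (cbot, ⊥) ⟨cbot, i_Pbot hS, by rw [hi.cbot, hf.cbot, cbot_fst]⟩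
    exact this
  have gtop : g ctop = ⊤ := by
    have := g3 (ctop, ⊤) ⟨ctop, i_Ptop hS, by rw [hi.ctop, hf.ctop, ctop_fst]⟩
    exact this
  have gT : g cT = κ := by
    have := g3 (cT, κ) ⟨cT, i_PT hS, by rw [hi.cT, hf.cT, cT_fst]⟩
    exact this
  have gB : g cB = κᶜ := by
    have := g3 (cB, κᶜ) ⟨cB, i_PB hS, by rw [hi.cB, hf.cB, cB_fst]⟩
    exact this
  have g1' : ∀ x y : T, g (x ⊓ y) = g x ⊓ g y := g1
  have g2' : ∀ x y : T, g (x ⊔ y) = g x ⊔ g y := g2
  refine ⟨fun x => ⟨(g (fP x), g (fQ x)), ?_⟩, ⟨?_, ?_, ?_, ?_, ?_, ?_⟩, ?_⟩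
  · show g (fP x) ⊓ κᶜ = g (fQ x) ⊓ κᶜ
    rw [← gB, ← g1', ← g1', i_agree hT]
  · intro x y
    apply Pair.ext
    · show g (fP (LB.mul x y)) = _
      rw [i_Pmul hT, g2', g1', g1']; rfl
    · show g (fQ (LB.mul x y)) = _
      rw [i_Qmul hT, g2', g1', g1']; rfl
  · intro x y
    apply Pair.ext
    · show g (fP (LB.add x y)) = _
      rw [i_Padd hT, g1', g2', g2']; rfl
    · show g (fQ (LB.add x y)) = _
      rw [i_Qadd hT, g1', g2', g2']; rfl
  · apply Pair.ext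
    · show g (fP LB.one) = ⊤
      rw [i_P1 hT, gtop]
    · show g (fQ LB.one) = κᶜ
      rw [i_Q1 hT, gB]
  · apply Pair.ext
    · show g (fP LB.zero) = ⊥
      rw [i_P0 hT, gbot]
    · show g (fQ LB.zero) = κ
      rw [i_Q0 hT, gT]
  · intro x y
    apply Pair.ext
    · show g (fP (x ⊓ y)) = _
      rw [i_Pinf hT, g1']; rfl
    · show g (fQ (x ⊓ y)) = _
      rw [i_Qinf hT, g1']; rfl
  · intro x y
    apply Pair.ext
    · show g (fP (x ⊔ y)) = _
      rw [i_Psup hT, g2']; rfl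
    · show g (fQ (x ⊔ y)) = _
      rw [i_Qsup hT, g2']; rfl
  · intro s
    apply Pair.ext
    · show g (fP (i s)) = (f s).1.1
      rw [← hi.fP]
      have := g3 (i (fP s), (f (fP s)).1.1) ⟨fP s, i_PP hS s, rfl⟩
      have h2 : g (i (fP s)) = (f (fP s)).1.1 := this
      rw [h2, hf.fP, (fP_pair _).1]
    · show g (fQ (i s)) = (f s).1.2
      rw [← hi.fQ]
      have := g3 (i (fQ s), (f (fQ s)).1.1) ⟨fQ s, i_PQ hS s, rfl⟩
      have h2 : g (i (fQ s)) = (f (fQ s)).1.1 := this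
      rw [h2, hf.fQ, (fQ_pair _).1]

/-- complement of a pair -/
def cpl (x : Pair E κ) : Pair E κ := ⟨(x.1.1ᶜ, x.1.2ᶜ), mk_cond fun F hF hc ht hb hk => by
  have h1 := agree hF hc x.2 hk
  rw [hc, hc]; tauto⟩

theorem cpl_compl (x : Pair E κ) : Compl x (cpl x) := by
  constructor
  · constructor <;>
    · apply le_of_prime'
      intro F hF hc ht hb
      have h1 := agree hF hc x.2
      simp only [mul_fst, mul_snd, zero_fst, zero_snd, cpl, hF.inf, hF.sup, hc]
      tauto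
  · constructor <;>
    · apply le_of_prime'
      intro F hF hc ht hb
      have h1 := agree hF hc x.2
      simp only [add_fst, add_snd, one_fst, one_snd, cpl, hF.inf, hF.sup, hc]
      tauto

end pair

/-! ### The completion of a member of the variety -/

/-- The data of the complete Boolean algebra `E` of `A`. -/
structure Hull {A : Type u} [LB A] {E : Type u} [BooleanAlgebra E] (j : A → E) : Prop where
  mod : Models A Eqs
  complete : ∀ S : Set E, ∃ s, IsLUB S s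
  inf : ∀ x y, j (x ⊓ y) = j x ⊓ j y
  sup : ∀ x y, j (x ⊔ y) = j x ⊔ j y
  P : ∀ x, j (fP x) = j x
  bot : j cbot = ⊥
  top : j ctop = ⊤
  le : ∀ x y, j x ≤ j y ↔ fP x ≤ fP y
  dense : ∀ U : E, IsLUB {z | ∃ k l, z = j k ⊓ (j l)ᶜ ∧ z ≤ U} U

theorem exists_Hull {A : Type u} [LB A] (h : Models A Eqs) :
    ∃ (E : Type u) (_ : BooleanAlgebra E) (j : A → E), Hull j := by
  obtain ⟨E, iE, j, h1, h2, h3, h4, h5, h6, h7, h8⟩ := @exists_hull A (dl h) fP cbot ctop
    (i_Pinf h) (i_Psup h) (i_PP h) (i_Pbot h) (i_Ptop h) (bot_le' h) (le_top' h)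
  exact ⟨E, iE, j, ⟨h, h1, h2, h3, h4, h5, h6, h7, h8⟩⟩

section comp
variable {A : Type u} [LB A] {E : Type u} [BooleanAlgebra E] {j : A → E} (H : Hull j)
include H

theorem Hull.B : j cB = (j cT)ᶜ := by
  symm
  apply IsCompl.compl_eq
  constructor
  · rw [disjoint_iff, ← H.inf, i_TB H.mod, H.bot]
  · rw [codisjoint_iff, ← H.sup, i_TB' H.mod, H.top]

/-- the embedding -/
def emb (x : A) : Pair E (j cT) := ⟨(j x, j (fQ x)), by
  show j x ⊓ (j cT)ᶜ = j (fQ x) ⊓ (j cT)ᶜ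
  rw [← H.B, ← H.P x, ← H.inf, ← H.inf, i_agree H.mod]⟩

theorem emb_hom : IsHom (emb H) where
  mul x y := by
    apply Pair.ext
    · show j (LB.mul x y) = (j x ⊓ j y) ⊔ (j (fQ x) ⊓ j (fQ y))
      rw [← H.P (LB.mul x y), i_Pmul H.mod, H.sup, H.inf, H.inf, H.P, H.P]
    · show j (fQ (LB.mul x y)) = (j x ⊓ j (fQ y)) ⊔ (j (fQ x) ⊓ j y)
      rw [i_Qmul H.mod, H.sup, H.inf, H.inf, H.P, H.P]
  add x y := by
    apply Pair.ext
    · show j (LB.add x y) = (j x ⊔ j y) ⊓ (j (fQ x) ⊔ j (fQ y))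
      rw [← H.P (LB.add x y), i_Padd H.mod, H.inf, H.sup, H.sup, H.P, H.P]
    · show j (fQ (LB.add x y)) = (j x ⊔ j (fQ y)) ⊓ (j (fQ x) ⊔ j y)
      rw [i_Qadd H.mod, H.inf, H.sup, H.sup, H.P, H.P]
  one := by
    apply Pair.ext
    · show j LB.one = ⊤
      rw [← H.P LB.one, i_P1 H.mod, H.top]
    · show j (fQ LB.one) = (j cT)ᶜ
      rw [i_Q1 H.mod, H.B]
  zero := by
    apply Pair.ext
    · show j LB.zero = ⊥
      rw [← H.P LB.zero, i_P0 H.mod, H.bot]
    · show j (fQ LB.zero) = j cT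
      rw [i_Q0 H.mod]
  inf x y := by
    apply Pair.ext
    · exact H.inf x y
    · show j (fQ (x ⊓ y)) = _
      rw [i_Qinf H.mod, H.inf]; rfl
  sup x y := by
    apply Pair.ext
    · exact H.sup x y
    · show j (fQ (x ⊔ y)) = _
      rw [i_Qsup H.mod, H.sup]; rfl

theorem emb_inj : Function.Injective (emb H) := by
  intro x y hxy
  have h1 : j x = j y := congrArg (fun z => z.1.1) hxy
  have h2 : j (fQ x) = j (fQ y) := congrArg (fun z => z.1.2) hxy
  have h3 : fP x = fP y := le_antisymm ((H.le _ _).1 h1.le) ((H.le _ _).1 h1.ge)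
  have h4 : fQ x = fQ y := by
    have := le_antisymm ((H.le _ _).1 h2.le) ((H.le _ _).1 h2.ge)
    rwa [i_PQ H.mod, i_PQ H.mod] at this
  rw [i_dec H.mod x, i_dec H.mod y, h3, h4]

theorem emb_P (x : A) : (emb H (fP x)).1.1 = j x ∧ (emb H (fP x)).1.2 = j x :=
  ⟨H.P x, by show j (fQ (fP x)) = _; rw [i_QP H.mod, H.P]⟩

omit H in
theorem sup_cond {E : Type u} [BooleanAlgebra E] {κ a b : E} (h1 : b ≤ a ⊔ κ) :
    b ⊓ κᶜ ≤ a := by
  apply le_of_prime'
  intro F hF hc ht hb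
  have h2 := fun h3 => hF.mono h1 h3
  simp only [hF.inf, hF.sup, hc] at h2 ⊢
  tauto

omit H in
theorem cond_sup {E : Type u} [BooleanAlgebra E] {κ a b : E} (h1 : b ⊓ κᶜ ≤ a) :
    b ≤ a ⊔ κ := by
  apply le_of_prime'
  intro F hF hc ht hb
  have h2 := fun h3 => hF.mono h1 h3
  simp only [hF.inf, hF.sup, hc] at h2 ⊢
  tauto

omit H in
theorem pair_complete {E : Type u} [BooleanAlgebra E] {κ : E}
    (hE : ∀ S : Set E, ∃ s, IsLUB S s) (S : Set (Pair E κ)) : ∃ s, IsLUB S s := by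
  obtain ⟨a, ha⟩ := hE {z | ∃ x ∈ S, z = x.1.1}
  obtain ⟨b, hb⟩ := hE {z | ∃ x ∈ S, z = x.1.2}
  have h1 : b ≤ a ⊔ κ := by
    apply hb.2
    rintro z ⟨x, hx, rfl⟩
    have h2 := ha.1 ⟨x, hx, rfl⟩
    apply cond_sup
    have h3 : x.1.1 ⊓ κᶜ = x.1.2 ⊓ κᶜ := x.2
    exact h3.symm.le.trans (inf_le_left.trans h2)
  have h1' : a ≤ b ⊔ κ := by
    apply ha.2
    rintro z ⟨x, hx, rfl⟩
    have h2 := hb.1 ⟨x, hx, rfl⟩
    apply cond_sup
    have h3 : x.1.1 ⊓ κᶜ = x.1.2 ⊓ κᶜ := x.2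
    exact h3.le.trans (inf_le_left.trans h2)
  refine ⟨⟨(a, b), le_antisymm (le_inf (sup_cond h1') inf_le_right)
    (le_inf (sup_cond h1) inf_le_right)⟩, ?_, ?_⟩
  · intro x hx
    exact ⟨ha.1 ⟨x, hx, rfl⟩, hb.1 ⟨x, hx, rfl⟩⟩
  · intro w hw
    refine ⟨ha.2 ?_, hb.2 ?_⟩
    · rintro z ⟨x, hx, rfl⟩
      exact (hw hx).1
    · rintro z ⟨x, hx, rfl⟩
      exact (hw hx).2

theorem emb_cdm : IsCDM (emb H) where
  hom := emb_hom H
  inj := emb_inj H
  complete S := pair_complete H.complete S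
  compl x := ⟨cpl x, cpl_compl x⟩
  dense x := by
    refine ⟨{z | (∃ (a b : A) (c : Pair E (j cT)), Compl (emb H b) c ∧
      z = LB.mul (emb H a) c) ∧ z ≤ x}, fun z hz => hz.1, fun z hz => hz.2, ?_⟩
    intro w hw
    have hx : x.1.1 ⊓ (j cT)ᶜ = x.1.2 ⊓ (j cT)ᶜ := x.2
    have hww : w.1.1 ⊓ (j cT)ᶜ = w.1.2 ⊓ (j cT)ᶜ := w.2
    have z1 : ∀ k l : A, j k ⊓ (j l)ᶜ ≤ x.1.1 → j k ⊓ (j l)ᶜ ≤ w.1.1 := by
      intro k l hkl
      have e1 : LB.mul (emb H (fP k ⊓ LB.one)) (cpl (emb H (fP l ⊔ LB.zero))) ≤ x ∧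
          j k ⊓ (j l)ᶜ ≤
            (LB.mul (emb H (fP k ⊓ LB.one)) (cpl (emb H (fP l ⊔ LB.zero)))).1.1 := by
        rw [(emb_hom H).inf, (emb_hom H).sup, (emb_hom H).one, (emb_hom H).zero]
        refine ⟨⟨?_, ?_⟩, ?_⟩
        · apply le_of_prime'
          intro F hF hc ht hb
          have h1 := agree hF hc hx
          have h2 := fun h3 => hF.mono hkl h3
          simp only [mul_fst, cpl, inf_fst, inf_snd, sup_fst, sup_snd, (emb_P H k).1,
            (emb_P H k).2, (emb_P H l).1, (emb_P H l).2, one_fst, one_snd, zero_fst, zero_snd,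
            hF.inf, hF.sup, hc] at h2 ⊢
          tauto
        · apply le_of_prime'
          intro F hF hc ht hb
          have h1 := agree hF hc hx
          have h2 := fun h3 => hF.mono hkl h3
          simp only [mul_snd, cpl, inf_fst, inf_snd, sup_fst, sup_snd, (emb_P H k).1,
            (emb_P H k).2, (emb_P H l).1, (emb_P H l).2, one_fst, one_snd, zero_fst, zero_snd,
            hF.inf, hF.sup, hc] at h2 ⊢
          tauto
        · apply le_of_prime'
          intro F hF hc ht hb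
          simp only [mul_fst, cpl, inf_fst, inf_snd, sup_fst, sup_snd, (emb_P H k).1,
            (emb_P H k).2, (emb_P H l).1, (emb_P H l).2, one_fst, one_snd, zero_fst, zero_snd,
            hF.inf, hF.sup, hc]
          tauto
      exact e1.2.trans (hw ⟨⟨_, _, _, cpl_compl _, rfl⟩, e1.1⟩).1
    have z2 : ∀ k l : A, j k ⊓ (j l)ᶜ ≤ x.1.2 →
        j k ⊓ (j l)ᶜ ⊓ j cT ≤ w.1.2 := by
      intro k l hkl
      have e1 : LB.mul (emb H (fP k ⊓ LB.zero)) (cpl (emb H (fP l ⊔ LB.zero))) ≤ x ∧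
          j k ⊓ (j l)ᶜ ⊓ j cT ≤
            (LB.mul (emb H (fP k ⊓ LB.zero)) (cpl (emb H (fP l ⊔ LB.zero)))).1.2 := by
        rw [(emb_hom H).inf, (emb_hom H).sup, (emb_hom H).zero]
        refine ⟨⟨?_, ?_⟩, ?_⟩
        · apply le_of_prime'
          intro F hF hc ht hb
          have h1 := agree hF hc hx
          have h2 := fun h3 => hF.mono hkl h3
          simp only [mul_fst, cpl, inf_fst, inf_snd, sup_fst, sup_snd, (emb_P H k).1,
            (emb_P H k).2, (emb_P H l).1, (emb_P H l).2, zero_fst, zero_snd,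
            hF.inf, hF.sup, hc] at h2 ⊢
          tauto
        · apply le_of_prime'
          intro F hF hc ht hb
          have h1 := agree hF hc hx
          have h2 := fun h3 => hF.mono hkl h3
          simp only [mul_snd, cpl, inf_fst, inf_snd, sup_fst, sup_snd, (emb_P H k).1,
            (emb_P H k).2, (emb_P H l).1, (emb_P H l).2, zero_fst, zero_snd,
            hF.inf, hF.sup, hc] at h2 ⊢
          tauto
        · apply le_of_prime'
          intro F hF hc ht hb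
          simp only [mul_snd, cpl, inf_fst, inf_snd, sup_fst, sup_snd, (emb_P H k).1,
            (emb_P H k).2, (emb_P H l).1, (emb_P H l).2, zero_fst, zero_snd,
            hF.inf, hF.sup, hc]
          tauto
      exact e1.2.trans (hw ⟨⟨_, _, _, cpl_compl _, rfl⟩, e1.1⟩).2
    have w1 : x.1.1 ≤ w.1.1 := by
      apply (H.dense x.1.1).2
      rintro _ ⟨k, l, rfl, hkl⟩
      exact z1 k l hkl
    refine ⟨w1, ?_⟩
    apply (H.dense x.1.2).2
    rintro _ ⟨k, l, rfl, hkl⟩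
    have h5 := z2 k l hkl
    apply le_of_prime'
    intro F hF hc ht hb h6
    have h1 := agree hF hc hx
    have h2 := agree hF hc hww
    have h3 := hF.mono hkl h6
    have h4 := fun h7 => hF.mono h5 h7
    have h8 := fun h7 => hF.mono w1 h7
    rw [hF.inf _ (j cT)] at h4
    show F w.1.2
    tauto

theorem emb_essential : IsEssential Eqs (emb H) := by
  refine ⟨emb_hom H, emb_inj H, ?_⟩
  intro C _ hC f hf hfe
  -- the main point: distinct diagonal elements are not identified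
  have main : ∀ u w : Pair E (j cT), u.1.1 = u.1.2 → w.1.1 = w.1.2 → f u = f w →
      u ≤ w := by
    intro u w hu hw hfuw
    by_contra hcon
    let z : Pair E (j cT) := ⟨(u.1.1 ⊓ w.1.1ᶜ, u.1.1 ⊓ w.1.1ᶜ), rfl⟩
    let w' : Pair E (j cT) := ⟨(w.1.1ᶜ, w.1.1ᶜ), rfl⟩
    have hz : z = u ⊓ w' := Pair.ext rfl (by rw [inf_snd, ← hu])
    have hwb : w ⊓ w' = cbot := by
      apply Pair.ext
      · rw [inf_fst, cbot_fst]; simp [w']
      · rw [inf_snd, cbot_snd, ← hw]; simp [w']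
    have hfz : f z = cbot := by
      rw [hz, hf.inf, hfuw, ← hf.inf, hwb, hf.cbot]
    have hz0 : u.1.1 ⊓ w.1.1ᶜ ≠ ⊥ := by
      intro h0
      apply hcon
      have h1 : u.1.1 ≤ w.1.1 := by
        rw [← disjoint_iff, disjoint_compl_right_iff] at h0
        exact h0
      exact ⟨h1, by rw [← hu, ← hw]; exact h1⟩
    have : ∃ k l : A, j k ⊓ (j l)ᶜ ≤ u.1.1 ⊓ w.1.1ᶜ ∧ ¬ j k ⊓ (j l)ᶜ ≤ ⊥ := by
      by_contra hno
      push Not at hno
      apply hz0
      rw [eq_bot_iff]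
      apply (H.dense (u.1.1 ⊓ w.1.1ᶜ)).2
      rintro _ ⟨k, l, rfl, hkl⟩
      exact hno k l hkl
    obtain ⟨k, l, hkl, hkl'⟩ := this
    let m : Pair E (j cT) := ⟨(j k ⊓ (j l)ᶜ, j k ⊓ (j l)ᶜ), rfl⟩
    have hm : f m = cbot := by
      apply le_antisymm
      · rw [← hfz]; exact hf.mono ⟨hkl, hkl⟩
      · exact bot_le' hC _
    have hk : emb H (fP k) = emb H (fP k ⊓ fP l) ⊔ m := by
      rw [(emb_hom H).inf]
      apply Pair.ext
      · rw [sup_fst, inf_fst, (emb_P H k).1, (emb_P H l).1]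
        show j k = (j k ⊓ j l) ⊔ (j k ⊓ (j l)ᶜ)
        rw [← inf_sup_left]; simp
      · rw [sup_snd, inf_snd, (emb_P H k).2, (emb_P H l).2]
        show j k = (j k ⊓ j l) ⊔ (j k ⊓ (j l)ᶜ)
        rw [← inf_sup_left]; simp
    have h1 : f (emb H (fP k)) = f (emb H (fP k ⊓ fP l)) := by
      rw [hk, hf.sup, hm]
      exact sup_eq_left.2 (bot_le' hC _)
    have h2 : fP k = fP k ⊓ fP l := hfe h1
    apply hkl'
    have h3 : j k ≤ j l := (H.le _ _).2 (by rw [h2]; exact inf_le_right)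
    calc j k ⊓ (j l)ᶜ ≤ j l ⊓ (j l)ᶜ := inf_le_inf h3 le_rfl
      _ = ⊥ := inf_compl_self _
      _ ≤ ⊥ := le_rfl
  intro x y hxy
  have h1 : f (fP x) = f (fP y) := by rw [hf.fP, hf.fP, hxy]
  have h2 : f (fQ x) = f (fQ y) := by rw [hf.fQ, hf.fQ, hxy]
  have hP : ∀ x : Pair E (j cT), (fP x).1.1 = (fP x).1.2 := fun x => by
    rw [(fP_pair x).1, (fP_pair x).2]
  have hQ : ∀ x : Pair E (j cT), (fQ x).1.1 = (fQ x).1.2 := fun x => by
    rw [(fQ_pair x).1, (fQ_pair x).2]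
  have h3 : fP x = fP y :=
    le_antisymm (main _ _ (hP x) (hP y) h1) (main _ _ (hP y) (hP x) h1.symm)
  have h4 : fQ x = fQ y :=
    le_antisymm (main _ _ (hQ x) (hQ y) h2) (main _ _ (hQ y) (hQ x) h2.symm)
  apply Pair.ext
  · rw [← (fP_pair x).1, ← (fP_pair y).1, h3]
  · rw [← (fQ_pair x).1, ← (fQ_pair y).1, h4]

theorem emb_hull : IsInjectiveHull Eqs (emb H) :=
  ⟨models_pair _, inj_pair H.complete _, emb_essential H⟩

end comp

theorem main_theorem (A : Type u) [LB A] (h : Models A Eqs) :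
    (∃ (B : Type u) (_ : LB B) (e : A → B), IsCDM e) ∧
    ∀ (B : Type u) [LB B] (e : A → B), IsCDM e → IsInjectiveHull Eqs e := by
  obtain ⟨E, iE, j, H⟩ := exists_Hull h
  exact ⟨⟨_, _, emb H, emb_cdm H⟩,
    fun _ _ _ he => hull_transfer Eqs (emb_cdm H) he (emb_hull H)⟩

theorem not_bdl : ∃ (A : Type u) (_ : LB A), Models A Eqs ∧ ¬ IsBDL A := by
  refine ⟨Pair (Set PUnit.{u+1}) ⊤, inferInstance, models_pair _, fun hb => ?_⟩
  have h1 := (hb LB.zero LB.zero).1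
  have h2 := congrArg (fun z => z.1.1) h1
  simp only [mul_fst, inf_fst, zero_fst, zero_snd] at h2
  have h3 : (⊤ : Set PUnit.{u+1}) = ⊥ := by simp at h2
  have h4 : (PUnit.unit : PUnit.{u+1}) ∈ (⊤ : Set PUnit.{u+1}) := trivial
  rw [h3] at h4
  exact h4

end Pool.Agent.V11238.CDM
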