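import Mathlib

/-!
# Commutative ℓ-bimonoids: definitions
-/

set_option autoImplicit false

namespace Pool.Agent.V11238.CDM

universe u v

/-- Commutative ℓ-bimonoids. -/
class LB (A : Type u) extends Lattice A where
  mul : A → A → A
  one : A
  add : A → A → A
  zero : A
  mul_assoc : ∀ x y z : A, mul (mul x y) z = mul x (mul y z)
  mul_comm : ∀ x y : A, mul x y = mul y x
  one_mul : ∀ x : A, mul one x = x
  add_assoc : ∀ x y z : A, add (add x y) z = add x (add y z)
  add_comm : ∀ x y : A, add x y = add y x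
  zero_add : ∀ x : A, add zero x = x
  hemi : ∀ x y z : A, mul x (add y z) ≤ add (mul x y) z
  mul_sup : ∀ x y z : A, mul x (y ⊔ z) = mul x y ⊔ mul x z
  add_inf : ∀ x y z : A, add x (y ⊓ z) = add x y ⊓ add x z

open LB

/-- Homomorphisms of commutative ℓ-bimonoids. -/
structure IsHom {A : Type u} {B : Type v} [LB A] [LB B] (f : A → B) : Prop where
  mul : ∀ x y, f (LB.mul x y) = LB.mul (f x) (f y)
  add : ∀ x y, f (LB.add x y) = LB.add (f x) (f y)
  one : f LB.one = LB.one
  zero : f LB.zero = LB.zero
  inf : ∀ x y, f (x ⊓ y) = f x ⊓ f y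
  sup : ∀ x y, f (x ⊔ y) = f x ⊔ f y

/-- Terms in the language of ℓ-bimonoids. -/
inductive Tm : Type
  | var (n : ℕ) : Tm
  | one : Tm
  | zero : Tm
  | mul (s t : Tm) : Tm
  | add (s t : Tm) : Tm
  | inf (s t : Tm) : Tm
  | sup (s t : Tm) : Tm

/-- Value of a term. -/
def Tm.eval {A : Type u} [LB A] (v : ℕ → A) : Tm → A
  | .var n => v n
  | .one => LB.one
  | .zero => LB.zero
  | .mul s t => LB.mul (s.eval v) (t.eval v)
  | .add s t => LB.add (s.eval v) (t.eval v)
  | .inf s t => s.eval v ⊓ t.eval v
  | .sup s t => s.eval v ⊔ t.eval v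

/-- `A` satisfies all equations of `E`. -/
def Models (A : Type u) [LB A] (E : Set (Tm × Tm)) : Prop :=
  ∀ p ∈ E, ∀ v : ℕ → A, p.1.eval v = p.2.eval v

/-- Bounded distributive lattices as ℓ-bimonoids: multiplication is the meet and addition is
the join (then the units are the bounds, and distributivity follows from `mul_sup`). -/
def IsBDL (A : Type u) [LB A] : Prop :=
  ∀ x y : A, LB.mul x y = x ⊓ y ∧ LB.add x y = x ⊔ y

/-- `x` and `y` are complements. -/
def Compl {A : Type u} [LB A] (x y : A) : Prop :=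
  LB.mul x y ≤ LB.zero ∧ LB.one ≤ LB.add x y

/-- `B`, with the embedding `e`, is a complemented Dedekind-MacNeille completion of `A`. -/
structure IsCDM {A B : Type u} [LB A] [LB B] (e : A → B) : Prop where
  hom : IsHom e
  inj : Function.Injective e
  complete : ∀ S : Set B, ∃ s, IsLUB S s
  compl : ∀ x : B, ∃ y, Compl x y
  dense : ∀ x : B, ∃ S : Set B,
    (∀ z ∈ S, ∃ (a b : A) (c : B), Compl (e b) c ∧ z = LB.mul (e a) c) ∧ IsLUB S x

/-- `B` is injective in the variety of the models of `E`. -/
def IsInjective (E : Set (Tm × Tm)) (B : Type u) [LB B] : Prop :=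
  ∀ (S T : Type u) [LB S] [LB T], Models S E → Models T E → ∀ i : S → T, IsHom i →
    Function.Injective i → ∀ f : S → B, IsHom f → ∃ g : T → B, IsHom g ∧ ∀ s, g (i s) = f s

/-- `e : A → B` is an essential embedding in the variety of the models of `E`. -/
def IsEssential (E : Set (Tm × Tm)) {A B : Type u} [LB A] [LB B] (e : A → B) : Prop :=
  IsHom e ∧ Function.Injective e ∧ ∀ (C : Type u) [LB C], Models C E → ∀ f : B → C, IsHom f →
    Function.Injective (f ∘ e) → Function.Injective f

/-- `e : A → B` is an injective hull of `A` in the variety of the models of `E`. -/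
def IsInjectiveHull (E : Set (Tm × Tm)) {A B : Type u} [LB A] [LB B] (e : A → B) : Prop :=
  Models B E ∧ IsInjective E B ∧ IsEssential E e

end Pool.Agent.V11238.CDM
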