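import Mathlib

/-!
# Distributive lattices: prime filters, extension into complete Boolean algebras, hulls
-/

set_option autoImplicit false

namespace Pool.Agent.V11238.CDM

universe u w

/-- `F` is the indicator of a prime filter (possibly improper or empty). -/
structure IsPrm {L : Type u} [Lattice L] (F : L → Prop) : Prop where
  inf : ∀ a b, F (a ⊓ b) ↔ F a ∧ F b
  sup : ∀ a b, F (a ⊔ b) ↔ F a ∨ F b

theorem IsPrm.mono {L : Type u} [Lattice L] {F : L → Prop} (h : IsPrm F) {a b : L}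
    (hab : a ≤ b) (ha : F a) : F b := by
  have := h.inf a b
  rw [inf_eq_left.2 hab] at this
  exact (this.1 ha).2

theorem exists_prime {L : Type u} [DistribLattice L] {x y : L} (h : ¬ x ≤ y) :
    ∃ F : L → Prop, IsPrm F ∧ F x ∧ ¬ F y := by
  have hd : Disjoint ((Order.PFilter.principal x : Order.PFilter L) : Set L)
      ((Order.Ideal.principal y : Order.Ideal L) : Set L) := by
    rw [Set.disjoint_left]
    intro z hz hz'
    have h1 : x ≤ z := by simpa using hz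
    have h2 : z ≤ y := by simpa using hz'
    exact h (h1.trans h2)
  obtain ⟨J, hJ, hIJ, hdis⟩ := DistribLattice.prime_ideal_of_disjoint_filter_ideal hd
  refine ⟨fun z => z ∉ J, ⟨?_, ?_⟩, ?_, ?_⟩
  · intro a b
    constructor
    · intro hab
      exact ⟨fun ha => hab (J.lower inf_le_left ha), fun hb => hab (J.lower inf_le_right hb)⟩
    · rintro ⟨ha, hb⟩ hab
      rcases hJ.mem_or_mem hab with h1 | h1
      · exact ha h1
      · exact hb h1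
  · intro a b
    constructor
    · intro hab
      by_contra hcon
      push Not at hcon
      exact hab (J.sup_mem hcon.1 hcon.2)
    · rintro (ha | hb) hab
      · exact ha (J.lower le_sup_left hab)
      · exact hb (J.lower le_sup_right hab)
  · intro hx
    exact Set.disjoint_left.1 hdis (by simp) hx
  · intro hy
    exact hy (hIJ (by simp))

theorem le_of_prime {L : Type u} [DistribLattice L] {x y : L}
    (h : ∀ F : L → Prop, IsPrm F → F x → F y) : x ≤ y := by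
  by_contra hcon
  obtain ⟨F, hF, h1, h2⟩ := exists_prime hcon
  exact h2 (h F hF h1)

theorem eq_of_prime {L : Type u} [DistribLattice L] {x y : L}
    (h : ∀ F : L → Prop, IsPrm F → (F x ↔ F y)) : x = y :=
  le_antisymm (le_of_prime fun F hF => (h F hF).1) (le_of_prime fun F hF => (h F hF).2)

theorem dl1 {L : Type u} [DistribLattice L] (p q p' q' x : L) :
    ((p ⊓ x) ⊔ q) ⊓ ((p' ⊓ x) ⊔ q') =
      ((((p ⊓ p') ⊔ (p ⊓ q')) ⊔ (q ⊓ p')) ⊓ x) ⊔ (q ⊓ q') := by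
  apply eq_of_prime
  intro F hF
  simp only [hF.inf, hF.sup]
  tauto

/-! ### Extension into complete Boolean algebras (Sikorski) -/

section ext
variable {M : Type u} [DistribLattice M] {E : Type w} [BooleanAlgebra E]

/-- closed under the lattice operations and monotone as a relation -/
structure Good (G : Set (M × E)) : Prop where
  inf : ∀ p ∈ G, ∀ q ∈ G, (p.1 ⊓ q.1, p.2 ⊓ q.2) ∈ G
  sup : ∀ p ∈ G, ∀ q ∈ G, (p.1 ⊔ q.1, p.2 ⊔ q.2) ∈ G
  mono : ∀ p ∈ G, ∀ q ∈ G, p.1 ≤ q.1 → p.2 ≤ q.2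

theorem good_extend (hE : ∀ S : Set E, ∃ s, IsLUB S s) {G : Set (M × E)} (hG : Good G)
    {b t : M} (hb : (b, (⊥ : E)) ∈ G) (ht : (t, (⊤ : E)) ∈ G) (hbx : ∀ m : M, b ≤ m)
    (htx : ∀ m : M, m ≤ t) (x : M) : ∃ G' : Set (M × E), Good G' ∧ G ⊆ G' ∧ ∃ e, (x, e) ∈ G' := by
  obtain ⟨e, he⟩ := hE {u | ∃ p ∈ G, ∃ q ∈ G, p.1 ≤ q.1 ⊔ x ∧ u = p.2 ⊓ q.2ᶜ}
  have low : ∀ p ∈ G, ∀ q ∈ G, p.1 ≤ q.1 ⊔ x → p.2 ≤ q.2 ⊔ e := by
    intro p hp q hq h
    have h1 : p.2 ⊓ q.2ᶜ ≤ e := he.1 ⟨p, hp, q, hq, h, rfl⟩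
    calc p.2 = (p.2 ⊓ q.2) ⊔ (p.2 ⊓ q.2ᶜ) := by rw [← inf_sup_left]; simp
      _ ≤ q.2 ⊔ e := sup_le_sup inf_le_right h1
  have up : ∀ p ∈ G, ∀ q ∈ G, p.1 ⊓ x ≤ q.1 → p.2 ⊓ e ≤ q.2 := by
    intro p hp q hq h
    have h1 : e ≤ p.2ᶜ ⊔ q.2 := by
      apply he.2
      rintro u ⟨p', hp', q', hq', h', rfl⟩
      have h2 : p.1 ⊓ p'.1 ≤ q.1 ⊔ q'.1 := by
        calc p.1 ⊓ p'.1 ≤ p.1 ⊓ (q'.1 ⊔ x) := inf_le_inf le_rfl h'
          _ = (p.1 ⊓ q'.1) ⊔ (p.1 ⊓ x) := inf_sup_left _ _ _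
          _ ≤ q'.1 ⊔ q.1 := sup_le_sup inf_le_right h
          _ = q.1 ⊔ q'.1 := sup_comm _ _
      have h3 := hG.mono _ (hG.inf p hp p' hp') _ (hG.sup q hq q' hq') h2
      have h3' : p.2 ⊓ p'.2 ≤ q.2 ⊔ q'.2 := h3
      have h4 : p'.2 ≤ p.2ᶜ ⊔ (q.2 ⊔ q'.2) := by
        calc p'.2 = (p'.2 ⊓ p.2ᶜ) ⊔ (p'.2 ⊓ p.2) := by rw [← inf_sup_left]; simp
          _ ≤ _ := sup_le_sup inf_le_right (by rw [inf_comm]; exact h3')
      calc p'.2 ⊓ q'.2ᶜ ≤ (p.2ᶜ ⊔ (q.2 ⊔ q'.2)) ⊓ q'.2ᶜ := inf_le_inf h4 le_rfl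
        _ = ((p.2ᶜ ⊔ q.2) ⊓ q'.2ᶜ) ⊔ (q'.2 ⊓ q'.2ᶜ) := by
            rw [← sup_assoc, inf_sup_right]
        _ ≤ p.2ᶜ ⊔ q.2 := by simp
    calc p.2 ⊓ e ≤ p.2 ⊓ (p.2ᶜ ⊔ q.2) := inf_le_inf le_rfl h1
      _ = (p.2 ⊓ p.2ᶜ) ⊔ (p.2 ⊓ q.2) := inf_sup_left _ _ _
      _ ≤ q.2 := by simp
  refine ⟨{u | ∃ p ∈ G, ∃ q ∈ G, u = ((p.1 ⊓ x) ⊔ q.1, (p.2 ⊓ e) ⊔ q.2)}, ⟨?_, ?_, ?_⟩, ?_, ?_⟩
  · rintro _ ⟨p, hp, q, hq, rfl⟩ _ ⟨p', hp', q', hq', rfl⟩
    refine ⟨_, hG.sup _ (hG.sup _ (hG.inf p hp p' hp') _ (hG.inf p hp q' hq')) _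
      (hG.inf q hq p' hp'), _, hG.inf q hq q' hq', ?_⟩
    exact Prod.ext (dl1 _ _ _ _ _) (dl1 _ _ _ _ _)
  · rintro _ ⟨p, hp, q, hq, rfl⟩ _ ⟨p', hp', q', hq', rfl⟩
    refine ⟨_, hG.sup p hp p' hp', _, hG.sup q hq q' hq', ?_⟩
    simp only [Prod.mk.injEq, inf_sup_right]
    constructor
    · ac_rfl
    · ac_rfl
  · rintro _ ⟨p, hp, q, hq, rfl⟩ _ ⟨p', hp', q', hq', rfl⟩ h
    have h : (p.1 ⊓ x) ⊔ q.1 ≤ (p'.1 ⊓ x) ⊔ q'.1 := h
    show (p.2 ⊓ e) ⊔ q.2 ≤ (p'.2 ⊓ e) ⊔ q'.2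
    have h1 : p.1 ⊓ x ≤ p'.1 ⊔ q'.1 :=
      (le_sup_left.trans h).trans (sup_le_sup inf_le_left le_rfl)
    have h2 : p.2 ⊓ e ≤ p'.2 ⊔ q'.2 := up p hp _ (hG.sup p' hp' q' hq') h1
    have h3 : q.1 ≤ p'.1 ⊔ q'.1 := (le_sup_right.trans h).trans (sup_le_sup inf_le_left le_rfl)
    have h4 : q.2 ≤ p'.2 ⊔ q'.2 := hG.mono q hq _ (hG.sup p' hp' q' hq') h3
    have h5 : q.1 ≤ q'.1 ⊔ x :=
      (le_sup_right.trans h).trans (sup_le (inf_le_right.trans le_sup_right) le_sup_left)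
    have h6 : q.2 ≤ q'.2 ⊔ e := low q hq q' hq' h5
    have h7 : (p'.2 ⊓ e) ⊔ q'.2 = (p'.2 ⊔ q'.2) ⊓ (e ⊔ q'.2) := sup_inf_right _ _ _
    rw [h7]
    refine sup_le (le_inf h2 (inf_le_right.trans le_sup_left)) (le_inf h4 ?_)
    rw [sup_comm]; exact h6
  · intro q hq
    refine ⟨_, hb, q, hq, ?_⟩
    have h1 : (b ⊓ x) ⊔ q.1 = q.1 := sup_eq_right.2 (inf_le_left.trans (hbx _))
    ext
    · exact h1.symm
    · simp
  · refine ⟨e, _, ht, _, hb, ?_⟩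
    have h1 : (t ⊓ x) ⊔ b = x := by
      rw [inf_eq_right.2 (htx x)]; exact sup_eq_left.2 (hbx x)
    ext
    · exact h1.symm
    · simp

theorem sikorski (hE : ∀ S : Set E, ∃ s, IsLUB S s) {G : Set (M × E)} (hG : Good G)
    {b t : M} (hb : (b, (⊥ : E)) ∈ G) (ht : (t, (⊤ : E)) ∈ G) (hbx : ∀ m : M, b ≤ m)
    (htx : ∀ m : M, m ≤ t) : ∃ g : M → E, (∀ x y, g (x ⊓ y) = g x ⊓ g y) ∧
      (∀ x y, g (x ⊔ y) = g x ⊔ g y) ∧ ∀ p ∈ G, g p.1 = p.2 := by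
  obtain ⟨H, hGH, hH⟩ := zorn_subset_nonempty {H : Set (M × E) | Good H} (by
    intro c hc hch hne
    refine ⟨⋃₀ c, ⟨?_, ?_, ?_⟩, fun s hs => Set.subset_sUnion_of_mem hs⟩
    · rintro p ⟨s, hs, hps⟩ q ⟨s', hs', hqs⟩
      rcases hch.total hs hs' with h | h
      · exact ⟨s', hs', (hc hs').inf p (h hps) q hqs⟩
      · exact ⟨s, hs, (hc hs).inf p hps q (h hqs)⟩
    · rintro p ⟨s, hs, hps⟩ q ⟨s', hs', hqs⟩
      rcases hch.total hs hs' with h | h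
      · exact ⟨s', hs', (hc hs').sup p (h hps) q hqs⟩
      · exact ⟨s, hs, (hc hs).sup p hps q (h hqs)⟩
    · rintro p ⟨s, hs, hps⟩ q ⟨s', hs', hqs⟩
      rcases hch.total hs hs' with h | h
      · exact (hc hs').mono p (h hps) q hqs
      · exact (hc hs).mono p hps q (h hqs)) G hG
  have hHg : Good H := hH.prop
  have tot : ∀ x, ∃ e, (x, e) ∈ H := by
    intro x
    obtain ⟨G', hG', hsub, e, he⟩ := good_extend hE hHg (hGH hb) (hGH ht) hbx htx x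
    exact ⟨e, hH.le_of_ge hG' hsub he⟩
  choose g hg using tot
  have uniq : ∀ p ∈ H, g p.1 = p.2 := fun p hp =>
    le_antisymm (hHg.mono _ (hg p.1) p hp le_rfl) (hHg.mono p hp _ (hg p.1) le_rfl)
  refine ⟨g, fun x y => ?_, fun x y => ?_, fun p hp => uniq p (hGH hp)⟩
  · exact uniq _ (hHg.inf _ (hg x) _ (hg y))
  · exact uniq _ (hHg.sup _ (hg x) _ (hg y))

end ext

/-! ### The complete Boolean algebra of a retract -/

section hull
variable {L : Type u} [DistribLattice L] (P : L → L) (bt tp : L)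

/-- prime filters that come from the retract -/
def X : Type u := {F : L → Prop // IsPrm F ∧ (∀ x, F (P x) ↔ F x) ∧ F tp ∧ ¬ F bt}

/-- basic sets -/
def basic : Set (Set (X P bt tp)) := {s | ∃ k l : L, s = {F | F.1 k ∧ ¬ F.1 l}}

instance : TopologicalSpace (X P bt tp) := TopologicalSpace.generateFrom (basic P bt tp)

theorem isBasis : TopologicalSpace.IsTopologicalBasis (basic P bt tp) := by
  refine ⟨?_, ?_, rfl⟩
  · rintro _ ⟨k, l, rfl⟩ _ ⟨k', l', rfl⟩ F hF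
    refine ⟨_, ⟨k ⊓ k', l ⊔ l', rfl⟩, ?_, ?_⟩
    · simp only [Set.mem_inter_iff, Set.mem_ofPred_eq] at hF ⊢
      rw [F.2.1.inf, F.2.1.sup]; tauto
    · intro F' hF'
      simp only [Set.mem_inter_iff, Set.mem_ofPred_eq] at hF' ⊢
      rw [F'.2.1.inf, F'.2.1.sup] at hF'; tauto
  · rw [Set.eq_univ_iff_forall]
    intro F
    exact ⟨_, ⟨tp, bt, rfl⟩, F.2.2.2⟩

/-- the open set of a lattice element -/
def opn (k : L) : TopologicalSpace.Opens (X P bt tp) :=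
  ⟨{F | F.1 k}, (isBasis P bt tp).isOpen ⟨k, bt, by
    ext F; simp only [Set.mem_ofPred_eq]; exact ⟨fun h => ⟨h, F.2.2.2.2⟩, fun h => h.1⟩⟩⟩

/-- its complement -/
def opnc (k : L) : TopologicalSpace.Opens (X P bt tp) :=
  ⟨{F | ¬ F.1 k}, (isBasis P bt tp).isOpen ⟨tp, k, by
    ext F; simp only [Set.mem_ofPred_eq]; exact ⟨fun h => ⟨F.2.2.2.1, h⟩, fun h => h.2⟩⟩⟩

theorem opn_compl (k : L) : (opn P bt tp k)ᶜ = opnc P bt tp k := by
  apply IsCompl.compl_eq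
  constructor
  · rw [disjoint_iff]
    ext F
    simp [opn, opnc]
  · rw [codisjoint_iff]
    ext F
    simp only [opn, opnc, TopologicalSpace.Opens.coe_sup, TopologicalSpace.Opens.coe_mk,
      Set.mem_union, Set.mem_ofPred_eq, TopologicalSpace.Opens.coe_top, Set.mem_univ, iff_true]
    tauto

theorem opnc_compl (k : L) : (opnc P bt tp k)ᶜ = opn P bt tp k := by
  apply IsCompl.compl_eq
  constructor
  · rw [disjoint_iff]
    ext F
    simp [opn, opnc]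
  · rw [codisjoint_iff]
    ext F
    simp only [opn, opnc, TopologicalSpace.Opens.coe_sup, TopologicalSpace.Opens.coe_mk,
      Set.mem_union, Set.mem_ofPred_eq, TopologicalSpace.Opens.coe_top, Set.mem_univ, iff_true]
    tauto

/-- the complete Boolean algebra -/
abbrev Ec : Type u := Heyting.Regular (TopologicalSpace.Opens (X P bt tp))

/-- the embedding of the retract -/
def jj (k : L) : Ec P bt tp := ⟨opn P bt tp k, by
  unfold Heyting.IsRegular; rw [opn_compl, opnc_compl]⟩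

theorem Ec_complete (S : Set (Ec P bt tp)) : ∃ s, IsLUB S s := by
  refine ⟨Heyting.Regular.toRegular
    (sSup {U : TopologicalSpace.Opens (X P bt tp) | ∃ a ∈ S, U = Heyting.Regular.val a}), ?_, ?_⟩
  · intro a ha
    rw [← Heyting.Regular.coe_le_coe]
    exact (le_sSup (show Heyting.Regular.val a ∈ {U : TopologicalSpace.Opens (X P bt tp) |
      ∃ a ∈ S, U = Heyting.Regular.val a} from ⟨a, ha, rfl⟩)).trans
      (Heyting.Regular.gi.gc.le_u_l _)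
  · intro b hb
    apply Heyting.Regular.gi.gc.l_le
    apply sSup_le
    rintro _ ⟨a, ha, rfl⟩
    exact Heyting.Regular.coe_le_coe.2 (hb ha)

theorem jj_inf (k l : L) : jj P bt tp (k ⊓ l) = jj P bt tp k ⊓ jj P bt tp l := by
  rw [← Heyting.Regular.coe_inj, Heyting.Regular.coe_inf]
  ext F
  exact F.2.1.inf k l

theorem jj_sup (k l : L) : jj P bt tp (k ⊔ l) = jj P bt tp k ⊔ jj P bt tp l := by
  rw [← Heyting.Regular.coe_inj, Heyting.Regular.coe_sup]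
  have h : ((jj P bt tp k : Ec P bt tp) : TopologicalSpace.Opens _) ⊔
      ((jj P bt tp l : Ec P bt tp) : TopologicalSpace.Opens _) = opn P bt tp (k ⊔ l) := by
    ext F
    exact (F.2.1.sup k l).symm
  rw [h, opn_compl, opnc_compl]
  rfl

theorem jj_tp : jj P bt tp tp = ⊤ := by
  rw [← Heyting.Regular.coe_inj]
  ext F
  exact ⟨fun _ => trivial, fun _ => F.2.2.2.1⟩

theorem jj_bt : jj P bt tp bt = ⊥ := by
  rw [← Heyting.Regular.coe_inj]
  ext F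
  exact ⟨fun h => (F.2.2.2.2 h).elim, fun h => h.elim⟩

theorem jj_P (k : L) : jj P bt tp (P k) = jj P bt tp k := by
  rw [← Heyting.Regular.coe_inj]
  ext F
  exact F.2.2.1 k

theorem jj_dense (U : Ec P bt tp) :
    IsLUB {z | ∃ k l, z = jj P bt tp k ⊓ (jj P bt tp l)ᶜ ∧ z ≤ U} U := by
  constructor
  · rintro z ⟨k, l, rfl, h⟩
    exact h
  · intro W hW
    rw [← Heyting.Regular.coe_le_coe]
    intro F hF
    obtain ⟨s, ⟨k, l, rfl⟩, hFs, hsU⟩ :=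
      (isBasis P bt tp).exists_subset_of_mem_open hF (Heyting.Regular.val U).isOpen
    have h1 : jj P bt tp k ⊓ (jj P bt tp l)ᶜ ≤ U := by
      rw [← Heyting.Regular.coe_le_coe, Heyting.Regular.coe_inf, Heyting.Regular.coe_compl]
      have : ((jj P bt tp l : Ec P bt tp) : TopologicalSpace.Opens _)ᶜ = opnc P bt tp l :=
        opn_compl P bt tp l
      rw [this]
      intro F' hF'
      exact hsU hF'
    have h2 := hW ⟨k, l, rfl, h1⟩
    rw [← Heyting.Regular.coe_le_coe, Heyting.Regular.coe_inf, Heyting.Regular.coe_compl] at h2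
    have h3 : ((jj P bt tp l : Ec P bt tp) : TopologicalSpace.Opens _)ᶜ = opnc P bt tp l :=
      opn_compl P bt tp l
    rw [h3] at h2
    exact h2 hFs

theorem jj_le (hPinf : ∀ x y, P (x ⊓ y) = P x ⊓ P y) (hPsup : ∀ x y, P (x ⊔ y) = P x ⊔ P y)
    (hPP : ∀ x, P (P x) = P x) (hb : P bt = bt) (ht : P tp = tp) (hbx : ∀ m : L, bt ≤ m)
    (htx : ∀ m : L, m ≤ tp) {k l : L} : jj P bt tp k ≤ jj P bt tp l ↔ P k ≤ P l := by
  constructor
  · intro h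
    by_contra hcon
    obtain ⟨F, hF, h1, h2⟩ := exists_prime hcon
    have hF' : IsPrm (fun x => F (P x)) :=
      ⟨fun a b => by rw [hPinf]; exact hF.inf _ _, fun a b => by rw [hPsup]; exact hF.sup _ _⟩
    have h3 : (fun x => F (P x)) tp := by
      show F (P tp); rw [ht]; exact hF.mono (htx _) h1
    have h4 : ¬ (fun x => F (P x)) bt := by
      show ¬ F (P bt); rw [hb]; exact fun h5 => h2 (hF.mono (hbx _) h5)
    rw [← Heyting.Regular.coe_le_coe] at h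
    have h5 : (⟨fun x => F (P x), hF', fun x => by show F (P (P x)) ↔ F (P x); rw [hPP], h3, h4⟩ : X P bt tp) ∈ opn P bt tp k := h1
    exact h2 (h h5)
  · intro h
    have h1 : jj P bt tp (P k) ≤ jj P bt tp (P l) := by
      have h2 := jj_inf P bt tp (P k) (P l)
      rw [inf_eq_left.2 h] at h2
      rw [h2]; exact inf_le_right
    rwa [jj_P, jj_P] at h1

/-- summary -/
theorem exists_hull (hPinf : ∀ x y, P (x ⊓ y) = P x ⊓ P y)
    (hPsup : ∀ x y, P (x ⊔ y) = P x ⊔ P y)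
    (hPP : ∀ x, P (P x) = P x) (hb : P bt = bt) (ht : P tp = tp) (hbx : ∀ m : L, bt ≤ m)
    (htx : ∀ m : L, m ≤ tp) : ∃ (E : Type u) (_ : BooleanAlgebra E) (j : L → E),
    (∀ S : Set E, ∃ s, IsLUB S s) ∧ (∀ x y, j (x ⊓ y) = j x ⊓ j y) ∧
    (∀ x y, j (x ⊔ y) = j x ⊔ j y) ∧ (∀ x, j (P x) = j x) ∧ j bt = ⊥ ∧ j tp = ⊤ ∧
    (∀ x y, j x ≤ j y ↔ P x ≤ P y) ∧
    ∀ U : E, IsLUB {z | ∃ k l, z = j k ⊓ (j l)ᶜ ∧ z ≤ U} U :=
  ⟨Ec P bt tp, inferInstance, jj P bt tp, Ec_complete P bt tp, jj_inf P bt tp, jj_sup P bt tp,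
    jj_P P bt tp, jj_bt P bt tp, jj_tp P bt tp,
    fun _ _ => jj_le P bt tp hPinf hPsup hPP hb ht hbx htx, jj_dense P bt tp⟩

end hull

end Pool.Agent.V11238.CDM
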