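import Pool.Agent.V11238.CDM.Unique
import Pool.Agent.V11238.CDM.Lat

/-!
# The ℓ-bimonoids of pairs over a Boolean algebra
-/

set_option autoImplicit false

namespace Pool.Agent.V11238.CDM

universe u

/-- Pairs of elements of the Boolean algebra `E` that agree outside `κ`. -/
def Pair (E : Type u) [BooleanAlgebra E] (κ : E) : Type u :=
  {x : E × E // x.1 ⊓ κᶜ = x.2 ⊓ κᶜ}

theorem IsPrm.compl {E : Type u} [BooleanAlgebra E] {F : E → Prop} (hF : IsPrm F)
    (ht : F ⊤) (hb : ¬ F ⊥) (x : E) : F xᶜ ↔ ¬ F x := by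
  have h1 := hF.inf x xᶜ
  have h2 := hF.sup x xᶜ
  rw [inf_compl_self] at h1
  rw [sup_compl_eq_top] at h2
  tauto

theorem le_of_prime' {E : Type u} [BooleanAlgebra E] {x y : E}
    (h : ∀ F : E → Prop, IsPrm F → (∀ x, F xᶜ ↔ ¬ F x) → F ⊤ → ¬ F ⊥ → F x → F y) :
    x ≤ y := by
  by_contra hcon
  obtain ⟨F, hF, h1, h2⟩ := exists_prime hcon
  have h3 : F ⊤ := hF.mono le_top h1
  have h4 : ¬ F ⊥ := fun h5 => h2 (hF.mono bot_le h5)
  exact h2 (h F hF (hF.compl h3 h4) h3 h4 h1)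

theorem eq_of_prime' {E : Type u} [BooleanAlgebra E] {x y : E}
    (h : ∀ F : E → Prop, IsPrm F → (∀ x, F xᶜ ↔ ¬ F x) → F ⊤ → ¬ F ⊥ → (F x ↔ F y)) :
    x = y :=
  le_antisymm (le_of_prime' fun F hF h1 h2 h3 => (h F hF h1 h2 h3).1)
    (le_of_prime' fun F hF h1 h2 h3 => (h F hF h1 h2 h3).2)

section
variable {E : Type u} [BooleanAlgebra E] {κ : E}

theorem agree {F : E → Prop} (hF : IsPrm F) (hc : ∀ x, F xᶜ ↔ ¬ F x) {a b : E}
    (h : a ⊓ κᶜ = b ⊓ κᶜ) (hk : ¬ F κ) : F a ↔ F b := by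
  have h1 := hF.inf a κᶜ
  have h2 := hF.inf b κᶜ
  rw [h] at h1
  rw [hc] at h1 h2
  tauto

theorem Pair.ext {x y : Pair E κ} (h1 : x.1.1 = y.1.1) (h2 : x.1.2 = y.1.2) : x = y :=
  Subtype.ext (Prod.ext h1 h2)

instance : PartialOrder (Pair E κ) := PartialOrder.lift (fun x => x.1) Subtype.coe_injective

theorem Pair.le_def {x y : Pair E κ} : x ≤ y ↔ x.1.1 ≤ y.1.1 ∧ x.1.2 ≤ y.1.2 := Iff.rfl

/-- constructor by prime filters -/
theorem mk_cond {a b : E} (h : ∀ F : E → Prop, IsPrm F → (∀ x, F xᶜ ↔ ¬ F x) → F ⊤ → ¬ F ⊥ →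
    ¬ F κ → (F a ↔ F b)) : a ⊓ κᶜ = b ⊓ κᶜ := by
  apply eq_of_prime'
  intro F hF hc ht hb
  rw [hF.inf, hF.inf, hc]
  have := h F hF hc ht hb
  tauto

instance : Lattice (Pair E κ) where
  sup x y := ⟨(x.1.1 ⊔ y.1.1, x.1.2 ⊔ y.1.2), mk_cond fun F hF hc ht hb hk => by
    have h1 := agree hF hc x.2 hk
    have h2 := agree hF hc y.2 hk
    simp only [hF.sup]; tauto⟩
  inf x y := ⟨(x.1.1 ⊓ y.1.1, x.1.2 ⊓ y.1.2), mk_cond fun F hF hc ht hb hk => by
    have h1 := agree hF hc x.2 hk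
    have h2 := agree hF hc y.2 hk
    simp only [hF.inf]; tauto⟩
  le_sup_left _ _ := ⟨le_sup_left, le_sup_left⟩
  le_sup_right _ _ := ⟨le_sup_right, le_sup_right⟩
  sup_le _ _ _ h h' := ⟨sup_le h.1 h'.1, sup_le h.2 h'.2⟩
  inf_le_left _ _ := ⟨inf_le_left, inf_le_left⟩
  inf_le_right _ _ := ⟨inf_le_right, inf_le_right⟩
  le_inf _ _ _ h h' := ⟨le_inf h.1 h'.1, le_inf h.2 h'.2⟩

/-- product -/
def Pair.mul (x y : Pair E κ) : Pair E κ :=
  ⟨((x.1.1 ⊓ y.1.1) ⊔ (x.1.2 ⊓ y.1.2), (x.1.1 ⊓ y.1.2) ⊔ (x.1.2 ⊓ y.1.1)),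
    mk_cond fun F hF hc ht hb hk => by
      have h1 := agree hF hc x.2 hk
      have h2 := agree hF hc y.2 hk
      simp only [hF.inf, hF.sup]; tauto⟩

/-- sum -/
def Pair.add (x y : Pair E κ) : Pair E κ :=
  ⟨((x.1.1 ⊔ y.1.1) ⊓ (x.1.2 ⊔ y.1.2), (x.1.1 ⊔ y.1.2) ⊓ (x.1.2 ⊔ y.1.1)),
    mk_cond fun F hF hc ht hb hk => by
      have h1 := agree hF hc x.2 hk
      have h2 := agree hF hc y.2 hk
      simp only [hF.inf, hF.sup]; tauto⟩

/-- unit of the product -/
def Pair.one : Pair E κ := ⟨(⊤, κᶜ), by simp⟩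

/-- unit of the sum -/
def Pair.zero : Pair E κ := ⟨(⊥, κ), by simp⟩

theorem sup_fst (x y : Pair E κ) : (x ⊔ y).1.1 = x.1.1 ⊔ y.1.1 := rfl
theorem sup_snd (x y : Pair E κ) : (x ⊔ y).1.2 = x.1.2 ⊔ y.1.2 := rfl
theorem inf_fst (x y : Pair E κ) : (x ⊓ y).1.1 = x.1.1 ⊓ y.1.1 := rfl
theorem inf_snd (x y : Pair E κ) : (x ⊓ y).1.2 = x.1.2 ⊓ y.1.2 := rfl

instance : LB (Pair E κ) where
  mul := Pair.mul
  one := Pair.one
  add := Pair.add
  zero := Pair.zero
  mul_assoc x y z := by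
    apply Pair.ext <;>
    · apply eq_of_prime'
      intro F hF hc ht hb
      simp only [Pair.mul, hF.inf, hF.sup]; tauto
  mul_comm x y := by
    apply Pair.ext <;>
    · apply eq_of_prime'
      intro F hF hc ht hb
      simp only [Pair.mul, hF.inf, hF.sup]; tauto
  one_mul x := by
    apply Pair.ext <;>
    · apply eq_of_prime'
      intro F hF hc ht hb
      have h1 := agree hF hc x.2
      simp only [Pair.mul, Pair.one, hF.inf, hF.sup, hc]; tauto
  add_assoc x y z := by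
    apply Pair.ext <;>
    · apply eq_of_prime'
      intro F hF hc ht hb
      simp only [Pair.add, hF.inf, hF.sup]; tauto
  add_comm x y := by
    apply Pair.ext <;>
    · apply eq_of_prime'
      intro F hF hc ht hb
      simp only [Pair.add, hF.inf, hF.sup]; tauto
  zero_add x := by
    apply Pair.ext <;>
    · apply eq_of_prime'
      intro F hF hc ht hb
      have h1 := agree hF hc x.2
      simp only [Pair.add, Pair.zero, hF.inf, hF.sup]; tauto
  hemi x y z := by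
    constructor <;>
    · apply le_of_prime'
      intro F hF hc ht hb
      simp only [Pair.add, Pair.mul, hF.inf, hF.sup]; tauto
  mul_sup x y z := by
    apply Pair.ext <;>
    · apply eq_of_prime'
      intro F hF hc ht hb
      simp only [Pair.mul, sup_fst, sup_snd, hF.inf, hF.sup]; tauto
  add_inf x y z := by
    apply Pair.ext <;>
    · apply eq_of_prime'
      intro F hF hc ht hb
      simp only [Pair.add, inf_fst, inf_snd, hF.inf, hF.sup]; tauto

theorem mul_fst (x y : Pair E κ) :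
    (LB.mul x y).1.1 = (x.1.1 ⊓ y.1.1) ⊔ (x.1.2 ⊓ y.1.2) := rfl
theorem mul_snd (x y : Pair E κ) :
    (LB.mul x y).1.2 = (x.1.1 ⊓ y.1.2) ⊔ (x.1.2 ⊓ y.1.1) := rfl
theorem add_fst (x y : Pair E κ) :
    (LB.add x y).1.1 = (x.1.1 ⊔ y.1.1) ⊓ (x.1.2 ⊔ y.1.2) := rfl
theorem add_snd (x y : Pair E κ) :
    (LB.add x y).1.2 = (x.1.1 ⊔ y.1.2) ⊓ (x.1.2 ⊔ y.1.1) := rfl
theorem one_fst : (LB.one : Pair E κ).1.1 = ⊤ := rfl
theorem one_snd : (LB.one : Pair E κ).1.2 = κᶜ := rfl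
theorem zero_fst : (LB.zero : Pair E κ).1.1 = ⊥ := rfl
theorem zero_snd : (LB.zero : Pair E κ).1.2 = κ := rfl

end

/-! ### The two-element Boolean algebra and the equations -/

instance (κ : Bool) : Fintype (Pair Bool κ) :=
  inferInstanceAs (Fintype {x : Bool × Bool // x.1 ⊓ κᶜ = x.2 ⊓ κᶜ})

instance (κ : Bool) : DecidableEq (Pair Bool κ) :=
  inferInstanceAs (DecidableEq {x : Bool × Bool // x.1 ⊓ κᶜ = x.2 ⊓ κᶜ})

/-- The equations valid in the two ℓ-bimonoids of pairs over the two-element Boolean algebra. -/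
def Eqs : Set (Tm × Tm) :=
  {p | ∀ (κ : Bool) (v : ℕ → Pair Bool κ), p.1.eval v = p.2.eval v}

/-- truth value -/
noncomputable def dd (p : Prop) : Bool := @decide p (Classical.dec p)

theorem dd_iff {p : Prop} : dd p = true ↔ p := by
  unfold dd; exact @decide_eq_true_iff p (Classical.dec p)

theorem dd_cond {E : Type u} [BooleanAlgebra E] {κ : E} {F : E → Prop} (h1 : IsPrm F)
    (h2 : ∀ x, F xᶜ ↔ ¬ F x) {a b : E} (h : a ⊓ κᶜ = b ⊓ κᶜ) :
    dd (F a) ⊓ (dd (F κ))ᶜ = dd (F b) ⊓ (dd (F κ))ᶜ := by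
  rw [Bool.eq_iff_iff]
  by_cases hk : F κ
  · have h3 : dd (F κ) = true := dd_iff.2 hk
    simp [h3]
  · have h3 : dd (F κ) = false := by
      rw [Bool.eq_false_iff]; exact fun h => hk (dd_iff.1 h)
    have h4 : dd (F a) = dd (F b) := by
      rw [Bool.eq_iff_iff, dd_iff, dd_iff]; exact agree h1 h2 h hk
    simp [h3, h4]

/-- the homomorphism of a prime filter -/
noncomputable def hF {E : Type u} [BooleanAlgebra E] {κ : E} (F : E → Prop) (h1 : IsPrm F)
    (h2 : ∀ x, F xᶜ ↔ ¬ F x) (x : Pair E κ) : Pair Bool (dd (F κ)) :=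
  ⟨(dd (F x.1.1), dd (F x.1.2)), dd_cond h1 h2 x.2⟩

theorem dd_and (p q : Prop) : dd (p ∧ q) = (dd p ⊓ dd q) := by
  rw [Bool.eq_iff_iff]; simp [dd_iff]
theorem dd_or (p q : Prop) : dd (p ∨ q) = (dd p ⊔ dd q) := by
  rw [Bool.eq_iff_iff]; simp [dd_iff]
theorem dd_not (p : Prop) : dd (¬ p) = (dd p)ᶜ := by
  rw [Bool.eq_iff_iff, dd_iff]
  by_cases hp : p
  · have h1 : dd p = true := dd_iff.2 hp
    rw [h1]; simpa using hp
  · have h1 : dd p = false := by rw [Bool.eq_false_iff]; exact fun h => hp (dd_iff.1 h)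
    rw [h1]; simpa using hp
theorem dd_inj {p q : Prop} (h : dd p = dd q) : p ↔ q := by
  rw [← dd_iff (p := p), ← dd_iff (p := q), h]
theorem dd_congr {p q : Prop} (h : p ↔ q) : dd p = dd q := by rw [h]

theorem hF_hom {E : Type u} [BooleanAlgebra E] {κ : E} (F : E → Prop) (hp : IsPrm F)
    (hc : ∀ x, F xᶜ ↔ ¬ F x) (ht : F ⊤) (hb : ¬ F ⊥) : IsHom (hF (κ := κ) F hp hc) where
  mul x y := by
    apply Pair.ext
    · simp only [hF, mul_fst]
      rw [dd_congr (hp.sup _ _), dd_or, dd_congr (hp.inf _ _), dd_congr (hp.inf _ _), dd_and,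
        dd_and]
    · simp only [hF, mul_snd]
      rw [dd_congr (hp.sup _ _), dd_or, dd_congr (hp.inf _ _), dd_congr (hp.inf _ _), dd_and,
        dd_and]
  add x y := by
    apply Pair.ext
    · simp only [hF, add_fst]
      rw [dd_congr (hp.inf _ _), dd_and, dd_congr (hp.sup _ _), dd_congr (hp.sup _ _), dd_or,
        dd_or]
    · simp only [hF, add_snd]
      rw [dd_congr (hp.inf _ _), dd_and, dd_congr (hp.sup _ _), dd_congr (hp.sup _ _), dd_or,
        dd_or]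
  one := by
    apply Pair.ext
    · exact dd_iff.2 ht
    · show dd (F κᶜ) = (dd (F κ))ᶜ
      rw [dd_congr (hc _), dd_not]
  zero := by
    apply Pair.ext
    · show dd (F ⊥) = false
      rw [Bool.eq_false_iff]; exact fun h => hb (dd_iff.1 h)
    · rfl
  inf x y := by
    apply Pair.ext
    · show dd (F _) = _
      rw [inf_fst, dd_congr (hp.inf _ _), dd_and]; rfl
    · show dd (F _) = _
      rw [inf_snd, dd_congr (hp.inf _ _), dd_and]; rfl
  sup x y := by
    apply Pair.ext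
    · show dd (F _) = _
      rw [sup_fst, dd_congr (hp.sup _ _), dd_or]; rfl
    · show dd (F _) = _
      rw [sup_snd, dd_congr (hp.sup _ _), dd_or]; rfl

theorem models_pair {E : Type u} [BooleanAlgebra E] (κ : E) : Models (Pair E κ) Eqs := by
  intro p hp v
  have key : ∀ F : E → Prop, IsPrm F → (∀ x, F xᶜ ↔ ¬ F x) → F ⊤ → ¬ F ⊥ →
      ((F (p.1.eval v).1.1 ↔ F (p.2.eval v).1.1) ∧ (F (p.1.eval v).1.2 ↔ F (p.2.eval v).1.2)) := by
    intro F h1 h2 h3 h4
    have h5 := hp (dd (F κ)) (fun n => hF F h1 h2 (v n))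
    rw [← (hF_hom F h1 h2 h3 h4).eval, ← (hF_hom F h1 h2 h3 h4).eval] at h5
    have h6 := congrArg (fun z => z.1.1) h5
    have h7 := congrArg (fun z => z.1.2) h5
    exact ⟨dd_inj h6, dd_inj h7⟩
  apply Pair.ext
  · exact eq_of_prime' fun F h1 h2 h3 h4 => (key F h1 h2 h3 h4).1
  · exact eq_of_prime' fun F h1 h2 h3 h4 => (key F h1 h2 h3 h4).2

theorem models_bdl {A : Type u} [LB A] (hA : IsBDL A) : Models A Eqs := by
  have hd : ∀ x y z : A, x ⊓ (y ⊔ z) = (x ⊓ y) ⊔ (x ⊓ z) := by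
    intro x y z
    rw [← (hA _ _).1, ← (hA _ _).1, ← (hA _ _).1, LB.mul_sup]
  have h0 : ∀ x : A, LB.zero ≤ x := by
    intro x
    have h1 := LB.zero_add x
    rw [(hA _ _).2] at h1
    exact sup_eq_right.1 h1
  have h1 : ∀ x : A, x ≤ LB.one := by
    intro x
    have h1 := LB.one_mul x
    rw [(hA _ _).1] at h1
    exact inf_eq_right.1 h1
  intro p hp v
  have key : ∀ x y : A, ¬ x ≤ y → ∃ F : A → Prop, IsPrm F ∧ F x ∧ ¬ F y := by
    let _ : DistribLattice A := DistribLattice.ofInfSupLe (fun x y z => (hd x y z).le)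
    intro x y h
    obtain ⟨F, hF, h2, h3⟩ := exists_prime h
    exact ⟨F, ⟨hF.inf, hF.sup⟩, h2, h3⟩
  have key2 : ∀ F : A → Prop, IsPrm F → F LB.one → ¬ F LB.zero →
      (F (p.1.eval v) ↔ F (p.2.eval v)) := by
    intro F hF ht hb
    let f : A → Pair Bool false := fun x => ⟨(dd (F x), dd (F x)), rfl⟩
    have hf : IsHom f := by
      constructor
      · intro x y
        apply Pair.ext
        · show dd (F _) = (dd (F x) ⊓ dd (F y)) ⊔ (dd (F x) ⊓ dd (F y))
          rw [(hA _ _).1, dd_congr (hF.inf _ _), dd_and, sup_idem]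
        · show dd (F _) = (dd (F x) ⊓ dd (F y)) ⊔ (dd (F x) ⊓ dd (F y))
          rw [(hA _ _).1, dd_congr (hF.inf _ _), dd_and, sup_idem]
      · intro x y
        apply Pair.ext
        · show dd (F _) = (dd (F x) ⊔ dd (F y)) ⊓ (dd (F x) ⊔ dd (F y))
          rw [(hA _ _).2, dd_congr (hF.sup _ _), dd_or, inf_idem]
        · show dd (F _) = (dd (F x) ⊔ dd (F y)) ⊓ (dd (F x) ⊔ dd (F y))
          rw [(hA _ _).2, dd_congr (hF.sup _ _), dd_or, inf_idem]
      · apply Pair.ext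
        · exact dd_iff.2 ht
        · exact dd_iff.2 ht
      · apply Pair.ext
        · show dd (F _) = false
          rw [Bool.eq_false_iff]; exact fun h => hb (dd_iff.1 h)
        · show dd (F _) = false
          rw [Bool.eq_false_iff]; exact fun h => hb (dd_iff.1 h)
      · intro x y
        apply Pair.ext
        · show dd (F _) = _
          rw [dd_congr (hF.inf _ _), dd_and]; rfl
        · show dd (F _) = _
          rw [dd_congr (hF.inf _ _), dd_and]; rfl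
      · intro x y
        apply Pair.ext
        · show dd (F _) = _
          rw [dd_congr (hF.sup _ _), dd_or]; rfl
        · show dd (F _) = _
          rw [dd_congr (hF.sup _ _), dd_or]; rfl
    have h5 := hp false (fun n => f (v n))
    rw [← hf.eval, ← hf.eval] at h5
    have h6 := congrArg (fun z => z.1.1) h5
    exact dd_inj h6
  apply le_antisymm
  · by_contra hcon
    obtain ⟨F, hF, h2, h3⟩ := key _ _ hcon
    exact h3 ((key2 F hF (hF.mono (h1 _) h2) (fun h => h3 (hF.mono (h0 _) h))).1 h2)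
  · by_contra hcon
    obtain ⟨F, hF, h2, h3⟩ := key _ _ hcon
    exact h3 ((key2 F hF (hF.mono (h1 _) h2) (fun h => h3 (hF.mono (h0 _) h))).2 h2)

end Pool.Agent.V11238.CDM
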