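import Pool.Agent.V11238.CDM.Defs

/-!
# Uniqueness of the complemented Dedekind-MacNeille completion
-/

set_option autoImplicit false

namespace Pool.Agent.V11238.CDM

universe u v w

section basic
variable {A : Type u} [LB A]

theorem mul_mono {x x' y y' : A} (h : x ≤ x') (h' : y ≤ y') : LB.mul x y ≤ LB.mul x' y' := by
  have h1 : LB.mul x y ≤ LB.mul x y' := by
    have := LB.mul_sup x y y'
    rw [sup_eq_right.2 h'] at this
    rw [this]; exact le_sup_left
  have h2 : LB.mul x y' ≤ LB.mul x' y' := by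
    have := LB.mul_sup y' x x'
    rw [sup_eq_right.2 h, LB.mul_comm y' x', LB.mul_comm y' x] at this
    rw [this]; exact le_sup_left
  exact h1.trans h2

theorem add_mono {x x' y y' : A} (h : x ≤ x') (h' : y ≤ y') : LB.add x y ≤ LB.add x' y' := by
  have h1 : LB.add x y ≤ LB.add x y' := by
    have := LB.add_inf x y y'
    rw [inf_eq_left.2 h'] at this
    rw [this]; exact inf_le_right
  have h2 : LB.add x y' ≤ LB.add x' y' := by
    have := LB.add_inf y' x x'
    rw [inf_eq_left.2 h, LB.add_comm y' x', LB.add_comm y' x] at this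
    rw [this]; exact inf_le_right
  exact h1.trans h2

theorem mul_one' (x : A) : LB.mul x LB.one = x := by rw [LB.mul_comm, LB.one_mul]
theorem add_zero' (x : A) : LB.add x LB.zero = x := by rw [LB.add_comm, LB.zero_add]

theorem Compl.symm {x y : A} (h : Compl x y) : Compl y x :=
  ⟨by rw [LB.mul_comm]; exact h.1, by rw [LB.add_comm]; exact h.2⟩

/-- residuation -/
theorem resid {x y c z : A} (h : Compl y c) : LB.mul x y ≤ z ↔ x ≤ LB.add z c := by
  constructor
  · intro h1
    calc x = LB.mul x LB.one := (mul_one' x).symm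
      _ ≤ LB.mul x (LB.add y c) := mul_mono le_rfl h.2
      _ ≤ LB.add (LB.mul x y) c := LB.hemi _ _ _
      _ ≤ LB.add z c := add_mono h1 le_rfl
  · intro h1
    calc LB.mul x y ≤ LB.mul (LB.add z c) y := mul_mono h1 le_rfl
      _ = LB.mul y (LB.add c z) := by rw [LB.mul_comm, LB.add_comm]
      _ ≤ LB.add (LB.mul y c) z := LB.hemi _ _ _
      _ ≤ LB.add LB.zero z := add_mono h.1 le_rfl
      _ = z := LB.zero_add z

theorem compl_iff {y c x : A} (h : Compl y c) : LB.mul x y ≤ LB.zero ↔ x ≤ c := by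
  rw [resid h, LB.zero_add]

theorem compl_unique {y c c' : A} (h : Compl y c) (h' : Compl y c') : c = c' := by
  apply le_antisymm
  · rw [← compl_iff h', compl_iff h]
  · rw [← compl_iff h, compl_iff h']

theorem compl_anti {x y c d : A} (h : Compl x c) (h' : Compl y d) : x ≤ y ↔ d ≤ c := by
  rw [← compl_iff h, LB.mul_comm, compl_iff h'.symm]

/-- De Morgan -/
theorem compl_mul {x y c d : A} (h : Compl x c) (h' : Compl y d) :
    Compl (LB.mul x y) (LB.add c d) := by
  constructor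
  · have h1 : LB.mul x (LB.add c d) ≤ d := by
      calc _ ≤ LB.add (LB.mul x c) d := LB.hemi _ _ _
        _ ≤ LB.add LB.zero d := add_mono h.1 le_rfl
        _ = d := LB.zero_add d
    calc LB.mul (LB.mul x y) (LB.add c d) = LB.mul y (LB.mul x (LB.add c d)) := by
          rw [LB.mul_comm x y, LB.mul_assoc]
      _ ≤ LB.mul y d := mul_mono le_rfl h1
      _ ≤ _ := h'.1
  · have h1 : x ≤ LB.add (LB.mul x y) d := (resid h').1 le_rfl
    calc LB.one ≤ LB.add x c := h.2
      _ ≤ LB.add (LB.add (LB.mul x y) d) c := add_mono h1 le_rfl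
      _ = _ := by rw [LB.add_assoc, LB.add_comm d c]

theorem compl_one_zero : Compl (LB.one : A) LB.zero :=
  ⟨by rw [LB.one_mul], by rw [add_zero']⟩

end basic

section hom
variable {A : Type u} {B : Type v} [LB A] [LB B]

theorem IsHom.mono {f : A → B} (h : IsHom f) {x y : A} (hxy : x ≤ y) : f x ≤ f y := by
  have := h.inf x y
  rw [inf_eq_left.2 hxy] at this
  rw [this]; exact inf_le_right

theorem IsHom.le_iff {f : A → B} (h : IsHom f) (hi : Function.Injective f) {x y : A} :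
    f x ≤ f y ↔ x ≤ y := by
  refine ⟨fun hxy => ?_, h.mono⟩
  have h1 := h.inf x y
  rw [inf_eq_left.2 hxy] at h1
  exact inf_eq_left.1 (hi h1)

theorem IsHom.compl {f : A → B} (h : IsHom f) {x y : A} (hc : Compl x y) : Compl (f x) (f y) :=
  ⟨by rw [← h.mul, ← h.zero]; exact h.mono hc.1, by rw [← h.add, ← h.one]; exact h.mono hc.2⟩

theorem IsHom.comp {C : Type w} [LB C] {f : A → B} {g : B → C} (hg : IsHom g) (hf : IsHom f) :
    IsHom (g ∘ f) :=
  ⟨fun x y => by simp [hf.mul, hg.mul], fun x y => by simp [hf.add, hg.add],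
    by simp [hf.one, hg.one], by simp [hf.zero, hg.zero], fun x y => by simp [hf.inf, hg.inf],
    fun x y => by simp [hf.sup, hg.sup]⟩

theorem IsHom.eval {f : A → B} (h : IsHom f) (v : ℕ → A) (t : Tm) :
    f (t.eval v) = t.eval (fun n => f (v n)) := by
  induction t with
  | var n => rfl
  | one => exact h.one
  | zero => exact h.zero
  | mul s t h1 h2 => simp only [Tm.eval, h.mul, h1, h2]
  | add s t h1 h2 => simp only [Tm.eval, h.add, h1, h2]
  | inf s t h1 h2 => simp only [Tm.eval, h.inf, h1, h2]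
  | sup s t h1 h2 => simp only [Tm.eval, h.sup, h1, h2]

end hom

section unique
variable {A B B' : Type u} [LB A] [LB B] [LB B']

/-- key equivalence: the order between generators is determined by `A` -/
theorem key {e : A → B} (he : IsHom e) (hi : Function.Injective e) {a b c d : A} {b' d' : B}
    (hb : Compl (e b) b') (hd : Compl (e d) d') :
    LB.mul (e a) b' ≤ LB.add (e c) d' ↔ LB.mul a d ≤ LB.add c b := by
  rw [← resid hd, LB.mul_assoc, LB.mul_comm b', ← LB.mul_assoc, resid hb.symm, ← he.mul,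
    ← he.add, he.le_iff hi]

/-- The set of pairs below `x`. -/
def J (e : A → B) (x : B) : Set (A × A) :=
  {p | ∃ c, Compl (e p.2) c ∧ LB.mul (e p.1) c ≤ x}

/-- The set of pairs above `x`. -/
def U (e : A → B) (x : B) : Set (A × A) :=
  {p | ∃ c, Compl (e p.2) c ∧ x ≤ LB.add (e p.1) c}

theorem isLUB_J {e : A → B} (h : IsCDM e) (x : B) :
    IsLUB {z | ∃ p ∈ J e x, ∃ c, Compl (e p.2) c ∧ z = LB.mul (e p.1) c} x := by
  constructor
  · rintro z ⟨p, ⟨c, hc, hle⟩, c', hc', rfl⟩
    rwa [compl_unique hc' hc]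
  · intro w hw
    obtain ⟨S, hS, hx⟩ := h.dense x
    apply hx.2
    intro z hz
    obtain ⟨a, b, c, hc, rfl⟩ := hS z hz
    exact hw ⟨(a, b), ⟨c, hc, hx.1 hz⟩, c, hc, rfl⟩

theorem isGLB_U {e : A → B} (h : IsCDM e) (x w : B)
    (hw : ∀ p ∈ U e x, ∀ c, Compl (e p.2) c → w ≤ LB.add (e p.1) c) : w ≤ x := by
  obtain ⟨x', hx'⟩ := h.compl x
  obtain ⟨w', hw'⟩ := h.compl w
  rw [compl_anti hw' hx']
  apply (isLUB_J h x').2
  rintro z ⟨⟨a, b⟩, ⟨c, hc, hle⟩, c', hc', rfl⟩
  obtain rfl := compl_unique hc hc'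
  obtain ⟨a', ha'⟩ := h.compl (e a)
  have h1 : Compl (LB.mul (e a) c) (LB.add (e b) a') := by
    rw [LB.add_comm]; exact compl_mul ha' hc.symm
  have h2 : x ≤ LB.add (e b) a' := (compl_anti hx' h1.symm).2 hle
  have h3 := hw (b, a) ⟨a', ha', h2⟩ a' ha'
  exact (compl_anti hw' h1.symm).1 h3

theorem exists_phi {e : A → B} {e' : A → B'} (h : IsCDM e) (h' : IsCDM e') (x : B) :
    ∃ y : B', J e' y = J e x := by
  obtain ⟨y, hy⟩ := h'.complete
    {z | ∃ p ∈ J e x, ∃ c, Compl (e' p.2) c ∧ z = LB.mul (e' p.1) c}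
  refine ⟨y, Set.Subset.antisymm ?_ ?_⟩
  · rintro ⟨a, b⟩ ⟨c, hc, hle⟩
    obtain ⟨b', hb'⟩ := h.compl (e b)
    refine ⟨b', hb', ?_⟩
    apply isGLB_U h
    rintro ⟨p, q⟩ ⟨q', hq', hpq⟩ q'' hq''
    obtain rfl := compl_unique hq' hq''
    rw [key h.hom h.inj hb' hq']
    obtain ⟨r, hr⟩ := h'.compl (e' q)
    rw [← key h'.hom h'.inj hc hr]
    refine hle.trans (hy.2 ?_)
    rintro z ⟨⟨s, t⟩, ⟨t', ht', hst⟩, t'', ht'', rfl⟩
    rw [key h'.hom h'.inj ht'' hr, ← key h.hom h.inj ht' hq']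
    exact hst.trans hpq
  · rintro ⟨a, b⟩ hab
    obtain ⟨b', hb'⟩ := h'.compl (e' b)
    exact ⟨b', hb', hy.1 ⟨(a, b), hab, b', hb', rfl⟩⟩

theorem J_le {e : A → B} (h : IsCDM e) {x y : B} : x ≤ y ↔ J e x ⊆ J e y := by
  constructor
  · rintro hxy p ⟨c, hc, hle⟩
    exact ⟨c, hc, hle.trans hxy⟩
  · intro hJ
    apply (isLUB_J h x).2
    rintro z ⟨p, hp, c, hc, rfl⟩
    obtain ⟨c', hc', hle⟩ := hJ hp
    rwa [compl_unique hc hc']

theorem J_inj {e : A → B} (h : IsCDM e) {x y : B} (hJ : J e x = J e y) : x = y :=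
  le_antisymm ((J_le h).2 hJ.subset) ((J_le h).2 hJ.superset)

/-- The isomorphism. -/
noncomputable def phi {e : A → B} {e' : A → B'} (h : IsCDM e) (h' : IsCDM e') (x : B) : B' :=
  (exists_phi h h' x).choose

theorem J_phi {e : A → B} {e' : A → B'} (h : IsCDM e) (h' : IsCDM e') (x : B) :
    J e' (phi h h' x) = J e x := (exists_phi h h' x).choose_spec

theorem phi_phi {e : A → B} {e' : A → B'} (h : IsCDM e) (h' : IsCDM e') (x : B) :
    phi h' h (phi h h' x) = x := by
  apply J_inj h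
  rw [J_phi, J_phi]

theorem phi_le {e : A → B} {e' : A → B'} (h : IsCDM e) (h' : IsCDM e') {x y : B} :
    phi h h' x ≤ phi h h' y ↔ x ≤ y := by
  rw [J_le h', J_le h, J_phi, J_phi]

theorem phi_e {e : A → B} {e' : A → B'} (h : IsCDM e) (h' : IsCDM e') (a : A) :
    phi h h' (e a) = e' a := by
  apply J_inj h'
  rw [J_phi]
  have h1 : ∀ {C : Type u} [LB C] (f : A → C), IsCDM f → ∀ b c : A,
      (b, c) ∈ J f (f a) ↔ b ≤ LB.add a c := by
    intro C _ f hf b c
    obtain ⟨c', hc'⟩ := hf.compl (f c)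
    have h2 : (b, c) ∈ J f (f a) ↔ LB.mul (f b) c' ≤ f a :=
      ⟨fun ⟨c'', h3, h4⟩ => by rwa [compl_unique hc' h3], fun h3 => ⟨c', hc', h3⟩⟩
    rw [h2, resid hc'.symm, ← hf.hom.add, hf.hom.le_iff hf.inj]
  ext ⟨b, c⟩
  rw [h1 e h, h1 e' h']

theorem phi_mul_le {e : A → B} {e' : A → B'} (h : IsCDM e) (h' : IsCDM e') (x y : B) :
    LB.mul (phi h h' x) (phi h h' y) ≤ phi h h' (LB.mul x y) := by
  obtain ⟨cy, hcy⟩ := h'.compl (phi h h' y)
  rw [resid hcy]
  apply (isLUB_J h' _).2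
  rintro z ⟨⟨a, b⟩, hab, b', hb', rfl⟩
  rw [J_phi] at hab
  rw [← resid hcy, LB.mul_comm]
  obtain ⟨cz, hcz⟩ := h'.compl (LB.mul (e' a) b')
  rw [resid hcz]
  apply (isLUB_J h' _).2
  rintro z ⟨⟨c, d⟩, hcd, d', hd', rfl⟩
  rw [J_phi] at hcd
  rw [← resid hcz]
  obtain ⟨b1, hb1, hab1⟩ := hab
  obtain ⟨d1, hd1, hcd1⟩ := hcd
  have e1 : Compl (e (LB.add b d)) (LB.mul b1 d1) := by
    rw [h.hom.add]; exact (compl_mul hb1.symm hd1.symm).symm
  have e2 : Compl (e' (LB.add b d)) (LB.mul b' d') := by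
    rw [h'.hom.add]; exact (compl_mul hb'.symm hd'.symm).symm
  have h3 : (LB.mul a c, LB.add b d) ∈ J e (LB.mul x y) := by
    refine ⟨_, e1, ?_⟩
    calc LB.mul (e (LB.mul a c)) (LB.mul b1 d1)
        = LB.mul (LB.mul (e a) b1) (LB.mul (e c) d1) := by
          rw [h.hom.mul, LB.mul_assoc, LB.mul_assoc, ← LB.mul_assoc (e c), ← LB.mul_assoc b1,
            LB.mul_comm (e c) b1]
      _ ≤ _ := mul_mono hab1 hcd1
  rw [← J_phi h h'] at h3
  obtain ⟨c3, hc3, h4⟩ := h3
  rw [compl_unique hc3 e2] at h4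
  calc LB.mul (LB.mul (e' c) d') (LB.mul (e' a) b')
      = LB.mul (e' (LB.mul a c)) (LB.mul b' d') := by
        rw [h'.hom.mul, LB.mul_comm, LB.mul_assoc, LB.mul_assoc, ← LB.mul_assoc (e' c),
          ← LB.mul_assoc b', LB.mul_comm (e' c) b']
    _ ≤ _ := h4

theorem phi_mul {e : A → B} {e' : A → B'} (h : IsCDM e) (h' : IsCDM e') (x y : B) :
    phi h h' (LB.mul x y) = LB.mul (phi h h' x) (phi h h' y) := by
  refine le_antisymm ?_ (phi_mul_le h h' x y)
  have h1 := phi_mul_le h' h (phi h h' x) (phi h h' y)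
  rw [phi_phi, phi_phi, ← phi_le h h', phi_phi] at h1
  exact h1

theorem phi_zero {e : A → B} {e' : A → B'} (h : IsCDM e) (h' : IsCDM e') :
    phi h h' LB.zero = LB.zero := by
  rw [← h.hom.zero, phi_e, h'.hom.zero]

theorem phi_one {e : A → B} {e' : A → B'} (h : IsCDM e) (h' : IsCDM e') :
    phi h h' LB.one = LB.one := by
  rw [← h.hom.one, phi_e, h'.hom.one]

theorem phi_compl {e : A → B} {e' : A → B'} (h : IsCDM e) (h' : IsCDM e') {x y : B}
    (hc : Compl x y) : Compl (phi h h' x) (phi h h' y) := by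
  obtain ⟨z, hz⟩ := h'.compl (phi h h' x)
  have : phi h h' y = z := by
    apply le_antisymm
    · rw [← compl_iff hz, ← phi_mul, ← phi_zero h h', phi_le, compl_iff hc]
    · rw [← phi_phi h' h z, phi_le, ← compl_iff hc, ← phi_phi h h' x, ← phi_mul, ← phi_zero h' h,
        phi_le, compl_iff hz]
  rw [this]; exact hz

theorem phi_hom {e : A → B} {e' : A → B'} (h : IsCDM e) (h' : IsCDM e') :
    IsHom (phi h h') where
  mul := phi_mul h h'
  add := by
    intro x y
    obtain ⟨x', hx'⟩ := h.compl x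
    obtain ⟨y', hy'⟩ := h.compl y
    have h1 : Compl (LB.mul x' y') (LB.add x y) := compl_mul hx'.symm hy'.symm
    have h2 := phi_compl h h' h1
    rw [phi_mul] at h2
    exact compl_unique h2 (compl_mul (phi_compl h h' hx').symm (phi_compl h h' hy').symm)
  one := phi_one h h'
  zero := phi_zero h h'
  inf := by
    intro x y
    apply le_antisymm
    · exact le_inf ((phi_le h h').2 inf_le_left) ((phi_le h h').2 inf_le_right)
    · rw [← phi_phi h' h (phi h h' x ⊓ phi h h' y), phi_le]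
      refine le_inf ?_ ?_
      · rw [← phi_le h h', phi_phi]; exact inf_le_left
      · rw [← phi_le h h', phi_phi]; exact inf_le_right
  sup := by
    intro x y
    apply le_antisymm
    · rw [← phi_phi h' h (phi h h' x ⊔ phi h h' y), phi_le]
      refine sup_le ?_ ?_
      · rw [← phi_le h h', phi_phi]; exact le_sup_left
      · rw [← phi_le h h', phi_phi]; exact le_sup_right
    · exact sup_le ((phi_le h h').2 le_sup_left) ((phi_le h h').2 le_sup_right)

/-- Being an injective hull passes from one completion to another. -/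
theorem hull_transfer (E : Set (Tm × Tm)) {e : A → B} {e' : A → B'} (h : IsCDM e)
    (h' : IsCDM e') (hh : IsInjectiveHull E e) : IsInjectiveHull E e' := by
  obtain ⟨h1, h2, h3, h4, h5⟩ := hh
  refine ⟨?_, ?_, h'.hom, h'.inj, ?_⟩
  · intro p hp v
    have h6 := h1 p hp (fun n => phi h' h (v n))
    have h7 := congrArg (phi h h') h6
    rw [(phi_hom h h').eval, (phi_hom h h').eval] at h7
    simpa only [phi_phi] using h7
  · intro S T _ _ hS hT i hi hinj f hf
    obtain ⟨g, hg, hgf⟩ := h2 S T hS hT i hi hinj (phi h' h ∘ f) ((phi_hom h' h).comp hf)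
    refine ⟨phi h h' ∘ g, (phi_hom h h').comp hg, fun s => ?_⟩
    simp only [Function.comp, hgf, phi_phi]
  · intro C _ hC f hf hfe
    have h6 : (f ∘ phi h h') ∘ e = f ∘ e' := by
      funext a; simp only [Function.comp, phi_e]
    have h7 := h5 C hC (f ∘ phi h h') (hf.comp (phi_hom h h')) (by rw [h6]; exact hfe)
    intro x y hxy
    have h8 := @h7 (phi h' h x) (phi h' h y) (by simpa only [Function.comp, phi_phi] using hxy)
    have h9 := congrArg (phi h h') h8
    simpa only [phi_phi] using h9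

end unique

end Pool.Agent.V11238.CDM
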